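import Mathlib

/-!
A conjugation invariant linear order on a free group, through a Magnus type representation.
-/

namespace Pool.Agent.MP_e50591_al.H50

open Finsupp

variable {α : Type} [DecidableEq α]

/-- Left multiplication by `x` in the free algebra modulo the squares of the generators. -/
noncomputable def nil (x : α) : Module.End ℤ (List α →₀ ℤ) :=
  linearCombination ℤ fun w => if w.head? = some x then 0 else single (x :: w) 1

lemma nil_single (x : α) (w : List α) (c : ℤ) :
    nil x (single w c) = if w.head? = some x then 0 else single (x :: w) c := by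
  unfold nil
  rw [linearCombination_single]
  split_ifs <;> simp

lemma nil_apply_cons (x : α) (f : List α →₀ ℤ) (r : List α) :
    nil x f (x :: r) = if r.head? = some x then 0 else f r := by
  induction f using Finsupp.induction_linear with
  | zero => simp
  | add f g hf hg => rw [map_add, Finsupp.add_apply, hf, hg]; split_ifs <;> simp
  | single w c =>
    rw [nil_single]
    by_cases h : w = r
    · subst h; split_ifs <;> simp
    · split_ifs <;> simp [h]

lemma nil_apply_ne (x : α) (f : List α →₀ ℤ) (w : List α) (h : w.head? ≠ some x) :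
    nil x f w = 0 := by
  induction f using Finsupp.induction_linear with
  | zero => simp
  | add f g hf hg => rw [map_add, Finsupp.add_apply, hf, hg]; simp
  | single w' c =>
    rw [nil_single]
    split_ifs
    · simp
    · rw [single_eq_of_ne]
      rintro rfl
      simp at h

lemma nil_mul (x : α) : nil x * nil x = 0 := by
  ext w : 2
  simp only [LinearMap.comp_apply, lsingle_apply, Module.End.mul_apply, nil_single]
  split_ifs <;> simp [nil_single]

/-- The unit `1 + x`. -/
noncomputable def gen (x : α) : (Module.End ℤ (List α →₀ ℤ))ˣ where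
  val := 1 + nil x
  inv := 1 - nil x
  val_inv := by rw [add_mul, mul_sub, mul_sub, nil_mul]; simp
  inv_val := by rw [sub_mul, mul_add, mul_add, nil_mul]; simp

/-- The Magnus type representation. -/
noncomputable def mag : FreeGroup α →* (Module.End ℤ (List α →₀ ℤ))ˣ := FreeGroup.lift gen

lemma mag_cons (a : α × Bool) (l : List (α × Bool)) (f : List α →₀ ℤ) :
    (mag (FreeGroup.mk (a :: l))).val f = (mag (FreeGroup.mk l)).val f +
      (if a.2 then 1 else -1 : ℤ) • nil a.1 ((mag (FreeGroup.mk l)).val f) := by
  obtain ⟨x, b⟩ := a
  have : FreeGroup.mk ((x, b) :: l) = FreeGroup.mk [(x, b)] * FreeGroup.mk l := by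
    simp [FreeGroup.mul_mk]
  rw [this, map_mul]
  cases b <;> simp [mag, gen, sub_eq_add_neg]

lemma mag_top (l : List (α × Bool)) : ∀ a : α × Bool, FreeGroup.IsReduced (a :: l) →
    ∃ r : List α, r.head? ≠ some a.1 ∧
      0 < (if a.2 then 1 else -1 : ℤ) * (mag (FreeGroup.mk (a :: l))).val (single [] 1) (a.1 :: r) *
        (mag (FreeGroup.mk (a :: l))).val (single [] 1) r ∧
      ∀ w : List α, (r.length + 1 < w.length ∨ r.length + 1 = w.length ∧ w.head? ≠ some a.1) →
        (mag (FreeGroup.mk (a :: l))).val (single [] 1) w = 0 := by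
  induction l with
  | nil =>
    intro a _
    have e : (mag (FreeGroup.mk ([] : List (α × Bool)))).val = 1 := by
      rw [← FreeGroup.one_eq_mk, map_one]; rfl
    refine ⟨[], by simp, ?_, ?_⟩
    · rw [mag_cons, e]
      cases a.2 <;> simp [nil_single]
    · intro w hw
      rw [mag_cons, e]
      have h1 : w ≠ [] := by rintro rfl; simp at hw
      have h2 : w ≠ [a.1] := by rintro rfl; simp at hw
      cases a.2 <;> simp [nil_single, h1, h2]
  | cons b l ih =>
    intro a ha
    obtain ⟨r, h1, h2, h3⟩ := ih b (List.isChain_cons_cons.1 ha).2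
    rw [mag_cons]
    generalize (mag (FreeGroup.mk (b :: l))).val (single [] 1) = f at h2 h3 ⊢
    by_cases hab : a.1 = b.1
    · have hab2 : a.2 = b.2 := (List.isChain_cons_cons.1 ha).1 hab
      rw [hab, hab2]
      refine ⟨r, h1, ?_, fun w hw => ?_⟩
      · simp only [Finsupp.add_apply, Finsupp.smul_apply, nil_apply_cons, if_neg h1,
          nil_apply_ne _ _ _ h1, smul_eq_mul, mul_zero, add_zero]
        have : f r ≠ 0 := by rintro h; simp [h] at h2
        have := mul_self_pos.2 this
        revert h2
        cases b.2 <;> simp only [Bool.false_eq_true, if_true, if_false] <;> intro h2 <;> nlinarith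
      · simp only [Finsupp.add_apply, Finsupp.smul_apply, h3 w hw, zero_add, smul_eq_mul]
        by_cases hw2 : w.head? = some b.1
        · obtain ⟨w', rfl⟩ : ∃ w', w = b.1 :: w' := by
            cases w with
            | nil => simp at hw2
            | cons y w' => exact ⟨w', by simpa using hw2⟩
          rw [nil_apply_cons]
          by_cases h4 : w'.head? = some b.1
          · simp [h4]
          · rw [if_neg h4, h3 w', mul_zero]
            simp only [List.length_cons, List.head?_cons, ne_eq, not_true, and_false,
              or_false] at hw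
            rcases Nat.lt_or_ge (r.length + 1) w'.length with h | h
            · exact Or.inl h
            · exact Or.inr ⟨by omega, h4⟩
        · rw [nil_apply_ne _ _ _ hw2, mul_zero]
    · have h4 : (b.1 :: r).head? ≠ some a.1 := by simpa using fun h => hab h.symm
      refine ⟨b.1 :: r, h4, ?_, fun w hw => ?_⟩
      · simp only [Finsupp.add_apply, Finsupp.smul_apply, nil_apply_cons, if_neg h4,
          nil_apply_ne _ _ _ h4, smul_eq_mul, mul_zero, add_zero]
        rw [h3 _ (Or.inl (by simp))]
        have : f (b.1 :: r) ≠ 0 := by rintro h; simp [h] at h2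
        have := mul_self_pos.2 this
        cases a.2 <;> simpa using this
      · simp only [List.length_cons] at hw
        simp only [Finsupp.add_apply, Finsupp.smul_apply, smul_eq_mul]
        rw [h3 w (Or.inl (by omega)), zero_add]
        by_cases hw2 : w.head? = some a.1
        · obtain ⟨w', rfl⟩ : ∃ w', w = a.1 :: w' := by
            cases w with
            | nil => simp at hw2
            | cons y w' => exact ⟨w', by simpa using hw2⟩
          rw [nil_apply_cons, h3 w' (Or.inl (by simp at hw; omega))]
          simp
        · rw [nil_apply_ne _ _ _ hw2, mul_zero]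

lemma mag_injective : Function.Injective (mag (α := α)) := by
  rw [injective_iff_map_eq_one]
  intro g hg
  rw [← FreeGroup.toWord_eq_nil_iff]
  by_contra hne
  obtain ⟨a, l, h⟩ := List.exists_cons_of_ne_nil hne
  obtain ⟨r, -, h2, -⟩ := mag_top l a (h ▸ FreeGroup.isReduced_toWord)
  rw [← h, FreeGroup.mk_toWord, hg] at h2
  simp at h2

/-- The operator raises the length filtration by `d`. -/
def Raise (d : ℕ) (A : Module.End ℤ (List α →₀ ℤ)) : Prop :=
  ∀ k f, f ∈ supported ℤ ℤ {w : List α | k ≤ w.length} →
    A f ∈ supported ℤ ℤ {w : List α | k + d ≤ w.length}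

omit [DecidableEq α] in
lemma raise_of_single {d : ℕ} {A : Module.End ℤ (List α →₀ ℤ)}
    (h : ∀ w' w : List α, w.length < w'.length + d → A (single w' 1) w = 0) : Raise d A := by
  intro k f hf
  rw [supported_eq_span_single] at hf
  refine Submodule.span_induction ?_ (by simp) (fun x y _ _ hx hy => ?_) (fun c x _ hx => ?_) hf
  · rintro _ ⟨w', hw', rfl⟩
    rw [mem_supported']
    intro w hw
    simp only [Set.mem_ofPred_eq] at hw hw'
    exact h w' w (by omega)
  · rw [map_add]; exact Submodule.add_mem _ hx hy
  · rw [map_smul]; exact Submodule.smul_mem _ _ hx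

omit [DecidableEq α] in
lemma Raise.mul {d e : ℕ} {A B : Module.End ℤ (List α →₀ ℤ)} (hA : Raise d A) (hB : Raise e B) :
    Raise (e + d) (A * B) := fun k f hf => by
  rw [← add_assoc]; exact hA _ _ (hB _ _ hf)

omit [DecidableEq α] in
lemma Raise.add {d : ℕ} {A B : Module.End ℤ (List α →₀ ℤ)} (hA : Raise d A) (hB : Raise d B) :
    Raise d (A + B) := fun k f hf => Submodule.add_mem _ (hA k f hf) (hB k f hf)

omit [DecidableEq α] in
lemma Raise.mono {d e : ℕ} {A : Module.End ℤ (List α →₀ ℤ)} (hA : Raise d A) (h : e ≤ d) :
    Raise e A := fun k f hf =>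
  supported_mono (s := {w : List α | k + d ≤ w.length})
    (fun w (hw : k + d ≤ w.length) => show k + e ≤ w.length by omega) (hA k f hf)

omit [DecidableEq α] in
lemma Raise.entry {d : ℕ} {A : Module.End ℤ (List α →₀ ℤ)} (hA : Raise d A) (w' w : List α)
    (h : w.length < w'.length + d) : A (single w' 1) w = 0 :=
  (mem_supported' _ _).1 (hA w'.length _ (single_mem_supported _ _ (by simp))) w (by simpa)

lemma raise_mag (g : FreeGroup α) : Raise 1 ((mag g).val - 1) := by
  have hn : ∀ x : α, Raise 1 (nil x) := fun x => raise_of_single fun w' w h => by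
    rw [nil_single]
    split_ifs
    · simp
    · rw [single_eq_of_ne]
      rintro rfl
      simp at h
  induction g using FreeGroup.induction_on with
  | C1 => intro k f _; simp
  | of x => simpa [mag, gen] using hn x
  | inv_of x _ =>
    have : (mag (FreeGroup.of x)⁻¹).val - 1 = -nil x := by simp [mag, gen]
    rw [this]
    exact fun k f hf => Submodule.neg_mem _ (hn x k f hf)
  | mul g h hg hh =>
    have : (mag (g * h)).val - 1 = ((mag g).val - 1) * ((mag h).val - 1) +
        (((mag g).val - 1) + ((mag h).val - 1)) := by
      rw [map_mul, Units.val_mul]; noncomm_ring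
    rw [this]
    exact ((hg.mul hh).mono (by omega)).add (hg.add hh)

theorem exists_conj_order : ∃ (K : Type) (_ : LinearOrder K) (key : FreeGroup α → K),
    Function.Injective key ∧ ∀ g₁ g₂ h, key g₁ < key g₂ → key (h⁻¹ * g₁ * h) < key (h⁻¹ * g₂ * h) := by
  obtain ⟨lo, wf⟩ := exists_wellFoundedLT (List α × List α)
  let key : FreeGroup α → Lex (ℕ ×ₗ (List α × List α) → ℤ) := fun g => toLex fun i =>
    if (ofLex i).2.2.length = (ofLex i).2.1.length + (ofLex i).1 then
      (mag g).val (single (ofLex i).2.1 1) (ofLex i).2.2 else 0
  have low : ∀ g (w' w : List α), w.length < w'.length → (mag g).val (single w' 1) w = 0 := by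
    intro g w' w h
    have := (raise_mag g).entry w' w (by omega)
    rw [LinearMap.sub_apply, Finsupp.sub_apply, Module.End.one_apply,
      single_eq_of_ne (by rintro rfl; omega)] at this
    simpa using this
  refine ⟨_, inferInstance, key, fun g₁ g₂ h => mag_injective (Units.ext ?_), ?_⟩
  · ext w' w
    rcases Nat.lt_or_ge w.length w'.length with h1 | h1
    · simp [low _ _ _ h1]
    · have := congrFun (toLex.injective h) (toLex (w.length - w'.length, (w', w)))
      simpa [Nat.add_sub_cancel' h1] using this
  · rintro g₁ g₂ h ⟨i, h1, h2⟩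
    set A := (mag g₂).val - (mag g₁).val with hA
    have hr : Raise (ofLex i).1 A := raise_of_single fun w' w hw => by
      rcases Nat.lt_or_ge w.length w'.length with h3 | h3
      · simp [hA, low _ _ _ h3]
      · have := h1 (toLex (w.length - w'.length, (w', w)))
          (Prod.Lex.lt_iff.2 (Or.inl (by simp only [ofLex_toLex]; omega)))
        simp only [key, Pi.toLex_apply, ofLex_toLex, Nat.add_sub_cancel' h3, if_true] at this
        simp [hA, this]
    have hc : Raise ((ofLex i).1 + 1)
        ((mag (h⁻¹ * g₂ * h)).val - (mag (h⁻¹ * g₁ * h)).val - A) := by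
      have : (mag (h⁻¹ * g₂ * h)).val - (mag (h⁻¹ * g₁ * h)).val - A =
          ((mag h⁻¹).val - 1) * A * ((mag h).val - 1) +
            (((mag h⁻¹).val - 1) * A + A * ((mag h).val - 1)) := by
        simp only [map_mul, Units.val_mul, hA]; noncomm_ring
      rw [this]
      exact ((((raise_mag _).mul hr).mul (raise_mag _)).mono (by omega)).add
        (((raise_mag _).mul hr).add ((hr.mul (raise_mag _)).mono (by omega)))
    have key2 : ∀ j : ℕ ×ₗ (List α × List α), j ≤ i →
        key (h⁻¹ * g₂ * h) j - key (h⁻¹ * g₁ * h) j = key g₂ j - key g₁ j := by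
      intro j hj
      have hj1 : (ofLex j).1 ≤ (ofLex i).1 := Prod.Lex.monotone_fst _ _ hj
      simp only [key, Pi.toLex_apply]
      split_ifs with h3
      · have := hc.entry (ofLex j).2.1 (ofLex j).2.2 (by omega)
        simp only [hA, LinearMap.sub_apply, Finsupp.sub_apply] at this
        linarith
      · rfl
    refine ⟨i, fun j hj => ?_, ?_⟩
    · have := key2 j hj.le
      have h3 := h1 j hj
      linarith
    · have := key2 i le_rfl
      linarith

end Pool.Agent.MP_e50591_al.H50
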