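import Pool.Agent.MP_e50591_al.H50.Newman

/-!
Runs: words that carry a chain of witnesses in the prefix monoid.
-/

namespace Pool.Agent.MP_e50591_al.H50

open FreeGroup

variable {α : Type} {m : ℕ} {U : ZMod m → α × Bool} {G : Type} [Group G]
  {φ : FreeGroup α →* G} {D : ℕ}

/-- The element given by the prefix of length `t` of the periodic word. -/
def pr (φ : FreeGroup α →* G) (U : ZMod m → α × Bool) (t : ℕ) : G := φ (mk (seg U 0 t))

/-- The prefix monoid. -/
def PM (φ : FreeGroup α →* G) (U : ZMod m → α × Bool) : Submonoid G :=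
  Submonoid.closure (Set.range (pr φ U))

lemma pr_mem (t : ℕ) : pr φ U t ∈ PM φ U := Submonoid.subset_closure ⟨t, rfl⟩

lemma ev_append (l l' : List (α × Bool)) : φ (mk (l ++ l')) = φ (mk l) * φ (mk l') := by
  rw [← mul_mk, φ.map_mul]

lemma ev_nil : φ (mk []) = 1 := by rw [← one_eq_mk, φ.map_one]

lemma ev_invRev (l : List (α × Bool)) : φ (mk (invRev l)) = (φ (mk l))⁻¹ := by
  rw [← inv_mk, φ.map_inv]

lemma ev_bar (a : α × Bool) : φ (mk [bar a]) = (φ (mk [a]))⁻¹ := by rw [mk_bar, φ.map_inv]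

lemma pr_add (t L : ℕ) : pr φ U (t + L) = pr φ U t * φ (mk (seg U t L)) := by
  rw [pr, seg_add, ev_append, zero_add, pr]

lemma pr_succ (t : ℕ) : pr φ U (t + 1) = pr φ U t * φ (mk [U t]) := pr_add t 1

lemma pr_mul_add {k : ℕ} (hk : m ∣ k) (t : ℕ) : pr φ U (k + t) = pr φ U k * pr φ U t := by
  rw [pr_add, (ZMod.natCast_eq_zero_iff _ _).2 hk]; rfl

lemma pr_D (hmD : m ∣ D) (h1 : pr φ U D = 1) (q t : ℕ) : pr φ U (D * q + t) = pr φ U t := by
  induction q with
  | zero => simp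
  | succ q ih => rw [Nat.mul_succ, add_comm _ D, add_assoc, pr_mul_add hmD, h1, one_mul, ih]

lemma pr_inv (hD : 0 < D) (hmD : m ∣ D) (h1 : pr φ U D = 1) {k : ℕ} (hk : m ∣ k) :
    (pr φ U k)⁻¹ ∈ PM φ U := by
  have h2 := pr_D hmD h1 k 0
  rw [add_zero, show D * k = k + (D - 1) * k by
    obtain ⟨D, rfl⟩ := Nat.exists_eq_succ_of_ne_zero hD.ne'; simp [Nat.succ_mul, add_comm],
    pr_mul_add hk, show pr φ U 0 = 1 from ev_nil] at h2
  rw [inv_eq_of_mul_eq_one_right h2]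
  exact pr_mem _

/-- The oriented edges of the relator loop based at the identity. -/
def Ty (φ : FreeGroup α →* G) (U : ZMod m → α × Bool) (x : G) (a : α × Bool) : Prop :=
  ∃ t : ℕ, (x = pr φ U t ∧ a = U t) ∨ (x = pr φ U (t + 1) ∧ a = bar (U t))

lemma Ty.flip {x : G} {a : α × Bool} (h : Ty φ U x a) : Ty φ U (x * φ (mk [a])) (bar a) := by
  obtain ⟨t, ⟨rfl, rfl⟩ | ⟨rfl, rfl⟩⟩ := h
  · exact ⟨t, Or.inr ⟨(pr_succ t).symm, rfl⟩⟩
  · exact ⟨t, Or.inl ⟨by rw [pr_succ, ev_bar, mul_inv_cancel_right], bar_bar _⟩⟩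

lemma Ty.on {x : G} {a : α × Bool} (h : Ty φ U x a) : ∃ t, x = pr φ U t := by
  obtain ⟨t, ⟨rfl, -⟩ | ⟨rfl, -⟩⟩ := h <;> exact ⟨_, rfl⟩

/-- An edge type that carries the maximal information among those with its label. -/
def Root (φ : FreeGroup α →* G) (U : ZMod m → α × Bool) (x : G) (a : α × Bool) : Prop :=
  ∀ x', Ty φ U x' a → x' * x⁻¹ ∈ PM φ U → x * x'⁻¹ ∈ PM φ U

lemma Root.flip {x : G} {a : α × Bool} (h : Root φ U x a) :
    Root φ U (x * φ (mk [a])) (bar a) := fun x' h1 h2 => by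
  have := h _ (bar_bar a ▸ h1.flip) (by rwa [ev_bar, mul_assoc, ← mul_inv_rev])
  rwa [ev_bar, mul_inv_rev, inv_inv, ← mul_assoc] at this

lemma exists_root (hD : 0 < D) (hmD : m ∣ D) (h1 : pr φ U D = 1) :
    ∃ j : ZMod m, ∀ r : ℕ, (r : ZMod m) = j → Root φ U (pr φ U r) (U r) := by
  obtain ⟨t, ht⟩ : ∃ t : ℕ, Root φ U (pr φ U t) (U t) := by
    let _ : Preorder G :=
      { le := fun x' x => x' * x⁻¹ ∈ PM φ U
        le_refl := fun x => by simp
        le_trans := fun x y z h h' => by simpa using mul_mem h h' }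
    have hf : {x | Ty φ U x (U (0 : ℕ))}.Finite :=
      ((Finset.range D).finite_toSet.image (pr φ U)).subset fun x hx => by
        obtain ⟨t, rfl⟩ := Ty.on hx
        exact ⟨t % D, by simpa using Nat.mod_lt t hD,
          by rw [← pr_D hmD h1 (t / D), Nat.div_add_mod]⟩
    obtain ⟨x, ⟨t, h2⟩, h3⟩ := hf.exists_minimal ⟨_, 0, Or.inl ⟨rfl, rfl⟩⟩
    have h4 : Root φ U x (U (0 : ℕ)) := fun x' h4 h5 => h3 h4 h5
    rcases h2 with ⟨rfl, e⟩ | ⟨rfl, e⟩
    · exact ⟨t, e ▸ h4⟩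
    · have := h4.flip
      rw [e, bar_bar, pr_succ, ev_bar, mul_inv_cancel_right] at this
      exact ⟨t, this⟩
  refine ⟨t, fun r hr x' h2 h3 => ?_⟩
  have e : r % m = t % m := (ZMod.natCast_eq_natCast_iff' _ _ _).1 hr
  have e1 := pr_mul_add (φ := φ) (U := U) (Nat.dvd_mul_right m (r / m)) (r % m)
  have e2 := pr_mul_add (φ := φ) (U := U) (Nat.dvd_mul_right m (t / m)) (t % m)
  rw [Nat.div_add_mod] at e1 e2
  have e3 : pr φ U r = pr φ U (m * (r / m)) * (pr φ U (m * (t / m)))⁻¹ * pr φ U t := by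
    rw [e1, e2, e]; group
  have u1 := pr_inv hD hmD h1 (Nat.dvd_mul_right m (r / m))
  have u2 := pr_inv hD hmD h1 (Nat.dvd_mul_right m (t / m))
  have := ht x' (hr ▸ h2) (by
    have := mul_mem (mul_mem h3 (pr_mem (m * (r / m)))) u2
    rw [e3] at this
    convert this using 1; group)
  rw [e3, mul_assoc]
  exact mul_mem (mul_mem (pr_mem _) u2) this

/-- A run with first lower bound `c`, start vertex `y` and last upper bound `d`. -/
inductive Run (φ : FreeGroup α →* G) (U : ZMod m → α × Bool) :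
    G → G → List (α × Bool) → G → Prop
  | nil {c y d : G} : c⁻¹ * d ∈ PM φ U → Run φ U c y [] d
  | cons {c c' y d : G} {a : α × Bool} {l : List (α × Bool)} : c⁻¹ * c' ∈ PM φ U →
      Ty φ U (c'⁻¹ * y) a → Run φ U c' (y * φ (mk [a])) l d → Run φ U c y (a :: l) d

lemma le_trans' {a b c : G} (h : a⁻¹ * b ∈ PM φ U) (h' : b⁻¹ * c ∈ PM φ U) :
    a⁻¹ * c ∈ PM φ U := by simpa using mul_mem h h'

namespace Run

variable {c c₀ y d e : G} {l l' : List (α × Bool)}

lemma le (h : Run φ U c y l d) : c⁻¹ * d ∈ PM φ U := by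
  induction h with
  | nil h => exact h
  | cons h _ _ ih => exact le_trans' h ih

lemma left (h : Run φ U c y l d) (h₀ : c₀⁻¹ * c ∈ PM φ U) : Run φ U c₀ y l d := by
  cases h with
  | nil h => exact nil (le_trans' h₀ h)
  | cons h h1 h2 => exact cons (le_trans' h₀ h) h1 h2

lemma append (h : Run φ U c y l d) (h' : Run φ U d (y * φ (mk l)) l' e) :
    Run φ U c y (l ++ l') e := by
  induction h with
  | nil h => rw [ev_nil, mul_one] at h'; exact h'.left h
  | @cons c c' y d a l h h1 _ ih =>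
    exact cons h h1 (ih (by rwa [mul_assoc, ← ev_append]))

lemma right (h : Run φ U c y l d) (h₀ : d⁻¹ * e ∈ PM φ U) : Run φ U c y l e := by
  simpa using h.append (nil h₀)

lemma split (h : Run φ U c y (l ++ l') e) : ∃ d, Run φ U c y l d ∧
    Run φ U d (y * φ (mk l)) l' e ∧
    ((∃ t, c⁻¹ * y = pr φ U t) → ∃ t, d⁻¹ * (y * φ (mk l)) = pr φ U t) := by
  induction l generalizing c y with
  | nil => exact ⟨c, nil (by simp), by simpa [ev_nil] using h, by simp [ev_nil]⟩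
  | cons a l ih =>
    cases h with
    | cons h h1 h2 =>
      obtain ⟨d, h3, h4, h5⟩ := ih h2
      rw [mul_assoc, ← ev_append] at h4 h5
      exact ⟨d, cons h h1 h3, h4, fun _ => h5 (by simpa [mul_assoc] using h1.flip.on)⟩

lemma fwd (b : G) (L : ℕ) : ∀ t : ℕ, Run φ U b (b * pr φ U t) (seg U t L) b := by
  induction L with
  | zero => exact fun t => nil (by simp)
  | succ L ih =>
    intro t
    refine cons (c' := b) (by simp) ⟨t, Or.inl ⟨by simp, rfl⟩⟩ ?_
    rw [mul_assoc, ← pr_succ, ← Nat.cast_succ]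
    exact ih _

lemma bwd (b : G) (L : ℕ) : ∀ t : ℕ, Run φ U b (b * pr φ U (t + L)) (invRev (seg U t L)) b := by
  induction L with
  | zero => exact fun t => nil (by simp)
  | succ L ih =>
    intro t
    rw [seg, invRev_cons', ← Nat.cast_succ, show t + (L + 1) = t + 1 + L by omega]
    refine (ih (t + 1)).append (cons (c' := b) (by simp) ⟨t, Or.inr ⟨?_, rfl⟩⟩ (nil (by simp)))
    rw [pr_add, ev_invRev]
    group

lemma reset {l₁ l₂ l₃ : List (α × Bool)} {a : α × Bool} {b x u : G}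
    (h : Run φ U c y (l₁ ++ a :: (l₂ ++ l₃)) d) (hr : Root φ U x a)
    (h1 : y * φ (mk l₁) = b * x) (h2 : x * φ (mk (a :: l₂)) = u) (hu : u⁻¹ ∈ PM φ U) :
    c⁻¹ * b ∈ PM φ U ∧ b⁻¹ * d ∈ PM φ U := by
  obtain ⟨d₁, g1, g2, -⟩ := h.split
  cases g2 with
  | @cons _ c' _ _ _ _ g2 g3 g4 =>
    obtain ⟨d₂, g5, -, g6⟩ := g4.split
    obtain ⟨t, g7⟩ := g6 (by simpa [mul_assoc] using g3.flip.on)
    have g8 : c'⁻¹ * b ∈ PM φ U := by
      have := mul_mem (mul_mem g5.le (g7 ▸ pr_mem t)) hu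
      rw [h1, mul_assoc _ (φ _), ← ev_append, ← h2] at this
      convert this using 1
      simp only [List.singleton_append]
      group
    have g9 := hr _ g3 (by rw [h1]; convert g8 using 1; group)
    rw [h1] at g9
    exact ⟨le_trans' (le_trans' g1.le g2) g8, le_trans' (by convert g9 using 1; group) g4.le⟩

end Run

variable [NeZero m]

theorem dehn (hD : 3 * m ≤ D) (hmD : m ∣ D) (h1 : pr φ U D = 1) {l : List (α × Bool)}
    (h : ¬ IsReduced l ∨ Arc U (D - m + 1) l) :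
    ∃ l₁ s s' l₂, l = l₁ ++ s ++ l₂ ∧ s'.length < s.length ∧ s.length ≤ D ∧
      φ (mk s') = φ (mk s) ∧ ∀ c y d, Run φ U c y s d → Run φ U c y s' d := by
  have hm : 0 < m := Nat.pos_of_neZero m
  have hD0 : 0 < D := by omega
  obtain ⟨j₀, hj₀⟩ := exists_root hD0 hmD h1
  rcases h with h | ⟨j, h⟩
  · rw [isReduced_iff_not_step, not_forall] at h
    obtain ⟨l', h⟩ := h
    obtain @⟨l₁, l₂, x, b⟩ := not_not.1 h
    refine ⟨l₁, [(x, b), bar (x, b)], [], l₂, by simp [bar], by simp, by simp; omega, ?_, ?_⟩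
    · rw [mk_cons, φ.map_mul, ev_bar, mul_inv_cancel, ev_nil]
    · intro c y d h
      cases h with
      | cons g1 _ g2 => exact .nil (le_trans' g1 g2.le)
  obtain ⟨t, rfl⟩ := ZMod.natCast_zmod_surjective j
  have e1 := pr_add (φ := φ) (U := U) t (D - m + 1)
  have e2 := pr_add (φ := φ) (U := U) (t + (D - m + 1)) (m - 1)
  rw [show t + (D - m + 1) + (m - 1) = D * 1 + t by omega, pr_D hmD h1] at e2
  have e3 : φ (mk (seg U (t + (D - m + 1) : ℕ) (m - 1))) = (φ (mk (seg U t (D - m + 1))))⁻¹ := by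
    rw [e1, mul_assoc, left_eq_mul] at e2
    exact eq_inv_of_mul_eq_one_right e2
  rcases h with ⟨l₁, l₂, rfl⟩ | ⟨l₁, l₂, h⟩
  · refine ⟨l₁, _, invRev (seg U (t + (D - m + 1) : ℕ) (m - 1)), l₂, rfl, by simp; omega,
      by simp; omega, by rw [ev_invRev, e3, inv_inv], fun c y d h => ?_⟩
    obtain ⟨r, r1, r2, r3⟩ := exists_pos 0 j₀ t
    obtain ⟨i, i1, i2, i3⟩ := exists_pos (0 : ZMod m) 0 (r + 1)
    obtain ⟨a, rfl⟩ := Nat.exists_eq_add_of_le r1
    obtain ⟨k, rfl⟩ := Nat.exists_eq_add_of_le i1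
    rw [show D - m + 1 = a + ((k + (D - m - a - k)) + 1) by omega, seg_add, seg, seg_add,
      ← Nat.cast_add, ← Nat.cast_succ] at h
    obtain ⟨g1, g2⟩ := h.reset (b := y * (pr φ U t)⁻¹) (hj₀ _ (by simpa using r3))
      (by rw [pr_add]; group) (by rw [mk_cons, φ.map_mul, ← mul_assoc, ← pr_succ, ← pr_add])
      (pr_inv hD0 hmD h1 ((ZMod.natCast_eq_zero_iff _ _).1 (by simpa using i3)))
    have := Run.bwd (φ := φ) (U := U) (y * (pr φ U t)⁻¹) (m - 1) (t + (D - m + 1))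
    rw [show t + (D - m + 1) + (m - 1) = D * 1 + t by omega, pr_D hmD h1,
      inv_mul_cancel_right] at this
    exact (this.left g1).right g2
  · refine ⟨invRev l₂, invRev (seg U t (D - m + 1)), seg U (t + (D - m + 1) : ℕ) (m - 1),
      invRev l₁, by rw [← invRev_invRev (L₁ := l), ← h]; simp [invRev_append], by simp; omega,
      by simp; omega, by rw [ev_invRev, e3], fun c y d h => ?_⟩
    obtain ⟨r, r1, r2, r3⟩ := exists_pos 0 j₀ (t + (D - m + 1) - m)
    obtain ⟨i, i1, i2, i3⟩ := exists_pos (0 : ZMod m) 0 (r + 1 - m)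
    obtain ⟨a, rfl⟩ := Nat.exists_eq_add_of_le (show t ≤ i by omega)
    obtain ⟨k, rfl⟩ := Nat.exists_eq_add_of_le (show t + a ≤ r by omega)
    have e4 : D - m + 1 = a + (k + ((D - m - a - k) + 1)) := by omega
    have h' := h
    rw [e4, seg_add, seg_add, seg, ← Nat.cast_add, ← Nat.cast_add, ← Nat.cast_succ, invRev_append,
      invRev_append, invRev_cons', List.append_assoc, List.append_assoc,
      List.singleton_append] at h'
    obtain ⟨g1, g2⟩ := h'.reset (b := y * (pr φ U (t + (D - m + 1)))⁻¹)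
      (hj₀ _ (by simpa using r3)).flip (u := pr φ U (t + a))
      (by rw [← pr_succ, show t + (D - m + 1) = (t + a + k + 1) + (D - m - a - k) by omega,
        pr_add (t + a + k + 1), ev_invRev]; group)
      (by rw [mk_cons (bar _), φ.map_mul, ev_bar, ev_invRev, pr_add (t + a) k]; group)
      (pr_inv hD0 hmD h1 ((ZMod.natCast_eq_zero_iff _ _).1 (by simpa using i3)))
    have := Run.fwd (φ := φ) (U := U) (y * (pr φ U (t + (D - m + 1)))⁻¹) (m - 1) (t + (D - m + 1))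
    rw [inv_mul_cancel_right] at this
    exact (this.left g1).right g2

theorem exists_run (hD : 3 * m ≤ D) (hmD : m ∣ D) (h1 : pr φ U D = 1) {g : G}
    (hg : g ∈ PM φ U) : ∃ v, φ (mk v) = g ∧ Run φ U 1 1 v g ∧ IsReduced v ∧
      ¬ Arc U (D - m + 1) v := by
  classical
  have h2 : ∃ k, ∃ v : List (α × Bool), v.length = k ∧ φ (mk v) = g ∧ Run φ U 1 1 v g := by
    induction hg using Submonoid.closure_induction_right with
    | one => exact ⟨_, [], rfl, ev_nil, .nil (by simp)⟩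
    | mul_right g _ p hp ih =>
      obtain ⟨_, v, -, rfl, h⟩ := ih
      obtain ⟨t, rfl⟩ := hp
      refine ⟨_, v ++ seg U 0 t, rfl, ev_append _ _, h.append ?_⟩
      have := Run.fwd (φ := φ) (U := U) (φ (mk v)) t 0
      rw [show pr φ U 0 = 1 from ev_nil, mul_one, Nat.cast_zero] at this
      rw [one_mul]
      exact this.right (by simpa using pr_mem t)
  obtain ⟨v, h3, h4, h5⟩ := Nat.find_spec h2
  refine ⟨v, h4, h5, ?_⟩
  rw [← not_not (a := IsReduced v), ← not_or]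
  intro h
  obtain ⟨l₁, s, s', l₂, rfl, g1, -, g2, g3⟩ := dehn hD hmD h1 h
  obtain ⟨d, k1, k2, -⟩ := h5.split
  obtain ⟨d', k3, k4, -⟩ := k1.split
  refine Nat.find_min h2 (m := (l₁ ++ s' ++ l₂).length) (by rw [← h3]; simp; omega)
    ⟨_, rfl, ?_, (k3.append (g3 _ _ _ k4)).append ?_⟩
  · rw [← h4, ev_append, ev_append, g2, ← ev_append, ← ev_append]
  · rwa [ev_append, g2, ← ev_append]

theorem chain {K : Type} [LinearOrder K] {κ eh : ZMod m → K} (h : Stk U κ eh) (hD : 3 * m ≤ D)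
    (hmD : m ∣ D) (hφ : ∀ g, φ g = 1 ↔ g ∈ Subgroup.normalClosure {mk (seg U 0 D)})
    (z : List (α × Bool)) (hz : φ (mk z) ∈ PM φ U) :
    ∃ L : List (List (α × Bool)), L.length ≤ z.length + 1 ∧
      (∀ x ∈ L, x.length ≤ 8 * D ∧ φ (mk x) ∈ PM φ U) ∧ φ (mk L.flatten) = φ (mk z) := by
  have hm : 0 < m := Nat.pos_of_neZero m
  have h1 : pr φ U D = 1 := (hφ _).2 (Subgroup.subset_normalClosure rfl)
  have short : ∀ t, ∃ x : List (α × Bool), x.length ≤ D ∧ φ (mk x) = pr φ U t := fun t =>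
    ⟨seg U 0 (t % D), by simpa using (Nat.mod_lt t (by omega)).le,
      by rw [← pr, ← pr_D hmD h1 (t / D), Nat.div_add_mod]⟩
  have key : ∀ (k : ℕ) (z v : List (α × Bool)) (c y : G), z.length = k → IsReduced v →
      ¬ Arc U (D - m + 1) v → φ (mk v) = φ (mk z) → Run φ U c y v (y * φ (mk v)) →
      (∃ t, c⁻¹ * y = pr φ U t) → ∃ L : List (List (α × Bool)), L.length ≤ k + 1 ∧
      (∀ x ∈ L, x.length ≤ 8 * D ∧ φ (mk x) ∈ PM φ U) ∧
        φ (mk L.flatten) = c⁻¹ * (y * φ (mk v)) := by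
    intro k
    induction k using Nat.strong_induction_on with
    | _ k ih =>
    intro z v c y hk hv av he hr hc
    by_cases geo : ∀ z', φ (mk z') = φ (mk z) → z.length ≤ z'.length
    swap
    · push Not at geo
      obtain ⟨z', g1, g2⟩ := geo
      obtain ⟨L, g3, g4⟩ := ih _ (hk ▸ g2) z' v c y rfl hv av (he.trans g1.symm) hr hc
      exact ⟨L, by omega, g4⟩
    obtain ⟨t₀, ht₀⟩ := hc
    obtain ⟨x₀, p1, p2⟩ := short t₀
    by_cases hl : 5 * D < z.length
    swap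
    · have e : φ (mk (x₀ ++ z)) = c⁻¹ * (y * φ (mk v)) := by
        rw [ev_append, p2, ← ht₀, he, mul_assoc]
      exact ⟨[x₀ ++ z], by simp, by simpa using ⟨by omega, e ▸ hr.le⟩, by simpa using e⟩
    have gz : ¬ (¬ IsReduced z ∨ Arc U (D - m + 1) z) := fun g => by
      obtain ⟨l₁, s, s', l₂, rfl, g1, -, g2, -⟩ := dehn hD hmD h1 g
      have := geo (l₁ ++ s' ++ l₂) (by rw [ev_append, ev_append, g2, ← ev_append, ← ev_append])
      simp at this; omega
    rw [not_or, not_not] at gz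
    obtain ⟨t, -, x₁, x₂, q1, q2, q3, q4⟩ := fellow h (by omega) hmD φ hφ hv gz.1 av gz.2 he geo hl
    have e0 := List.take_append_drop t v
    have e1 : y * φ (mk v) = y * φ (mk (v.take t)) * φ (mk (v.drop t)) := by
      rw [mul_assoc, ← ev_append, e0]
    obtain ⟨d, k1, k2, k3⟩ := Run.split (l := v.take t) (l' := v.drop t) (e := y * φ (mk v))
      (by rw [e0]; exact hr)
    obtain ⟨t₁, ht₁⟩ := k3 ⟨t₀, ht₀⟩
    obtain ⟨x₃, p3, p4⟩ := short t₁
    obtain ⟨L, g3, g4, g5⟩ := ih _ (hk ▸ q3) x₂ (v.drop t) d _ rfl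
      (List.IsChain.suffix hv (List.drop_suffix _ _)) (fun ⟨j, g⟩ => av ⟨j, g.imp
        (fun g => g.trans (List.drop_suffix _ _).isInfix) fun g => g.trans (by
          rw [← e0, invRev_append, e0]; exact (List.prefix_append _ _).isInfix)⟩)
      q4.symm (e1 ▸ k2) ⟨t₁, ht₁⟩
    have e : φ (mk (x₀ ++ x₁ ++ invRev x₃)) = c⁻¹ * d := by
      rw [ev_append, ev_append, ev_invRev, p2, p4, q2, ← ht₀, ← ht₁]; group
    refine ⟨(x₀ ++ x₁ ++ invRev x₃) :: L, by simp; omega, ?_, ?_⟩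
    · intro x hx
      rcases List.mem_cons.1 hx with rfl | hx
      · exact ⟨by simp; omega, e ▸ k1.le⟩
      · exact g4 x hx
    · rw [List.flatten_cons, ev_append, e, g5, e1]; group
  obtain ⟨v, g1, g2, g3, g4⟩ := exists_run hD hmD h1 hz
  simpa [g1] using key _ z v 1 1 rfl g3 g4 g1 (by rwa [one_mul, g1])
    ⟨0, by rw [inv_mul_cancel]; exact ev_nil.symm⟩

end Pool.Agent.MP_e50591_al.H50
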