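import Mathlib

/-!
A bounded search that is primitive recursive.
-/

namespace Pool.Agent.MP_e50591_al.H50

variable {β : Type} [DecidableEq β] {X : List (List β)} {R : List (List β × List β)}

/-- Replace the left side of a rule at position `i`, when it occurs there. -/
def rep (z : List β) (i : ℕ) (r : List β × List β) : List β :=
  if (z.drop i).take r.1.length = r.1 then z.take i ++ r.2 ++ z.drop (i + r.1.length) else z

/-- The words reached in one move. -/
def nxt (X : List (List β)) (R : List (List β × List β)) (z : List β) : List (List β) :=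
  X.map (fun x => x ++ z) ++ (List.range (z.length + 1)).flatMap fun i => R.map (rep z i)

/-- One round of the search. -/
def grow (X : List (List β)) (R : List (List β × List β)) (L : List (List β)) :
    List (List β) := L ++ L.flatMap (nxt X R)

lemma grow_step {N : ℕ} {L : List (List β)} {y y' : List β} (h : y ∈ (grow X R)^[N] L)
    (h' : y' ∈ nxt X R y) : y' ∈ (grow X R)^[N + 1] L := by
  rw [Function.iterate_succ_apply', grow]
  exact List.mem_append_right _ (List.mem_flatMap.2 ⟨y, h, h'⟩)

lemma grow_mono {N N' : ℕ} {L : List (List β)} {y : List β} (h : y ∈ (grow X R)^[N] L)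
    (hN : N ≤ N') : y ∈ (grow X R)^[N'] L := by
  induction hN with
  | refl => exact h
  | step _ ih =>
    rw [Function.iterate_succ_apply', grow]
    exact List.mem_append_left _ ih

lemma mem_nxt_left {x : List β} (hx : x ∈ X) (z : List β) : x ++ z ∈ nxt X R z :=
  List.mem_append_left _ (List.mem_map.2 ⟨x, hx, rfl⟩)

lemma mem_nxt_right {s s' : List β} (h : (s, s') ∈ R) (l₁ l₂ : List β) :
    l₁ ++ s' ++ l₂ ∈ nxt X R (l₁ ++ s ++ l₂) := by
  refine List.mem_append_right _ (List.mem_flatMap.2 ⟨l₁.length, by simp,
    List.mem_map.2 ⟨_, h, ?_⟩⟩)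
  simp [rep, List.drop_append]

lemma of_mem_nxt {y z : List β} (h : y ∈ nxt X R z) : (∃ x ∈ X, y = x ++ z) ∨ y = z ∨
    ∃ r ∈ R, ∃ l₁ l₂, z = l₁ ++ r.1 ++ l₂ ∧ y = l₁ ++ r.2 ++ l₂ := by
  rcases List.mem_append.1 h with h | h
  · obtain ⟨x, hx, rfl⟩ := List.mem_map.1 h
    exact Or.inl ⟨x, hx, rfl⟩
  · obtain ⟨i, -, h⟩ := List.mem_flatMap.1 h
    obtain ⟨r, hr, rfl⟩ := List.mem_map.1 h
    rw [rep]
    split_ifs with e
    · refine Or.inr (Or.inr ⟨r, hr, _, _, ?_, rfl⟩)
      rw [← List.drop_drop]
      conv_rhs => rw [← e]
      simp only [e, List.append_assoc]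
      conv_rhs => enter [2, 1]; rw [← e]
      rw [List.take_append_drop, List.take_append_drop]
    · exact Or.inr (Or.inl rfl)

lemma grow_prim [Primcodable β] : Primrec (grow X R) := by
  have h1 : Primrec fun p : (List β × ℕ) × (List β × List β) => rep p.1.1 p.1.2 p.2 := by
    have a := Primrec.fst.comp (Primrec.fst (α := List β × ℕ) (β := List β × List β))
    have b := Primrec.snd.comp (Primrec.fst (α := List β × ℕ) (β := List β × List β))
    have c := Primrec.fst.comp (Primrec.snd (α := List β × ℕ) (β := List β × List β))
    have d := Primrec.snd.comp (Primrec.snd (α := List β × ℕ) (β := List β × List β))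
    have e := Primrec.list_length.comp c
    exact Primrec.ite
      (Primrec.eq.comp (Primrec.list_take.comp e (Primrec.list_drop.comp b a)) c)
      (Primrec.list_append.comp (Primrec.list_append.comp (Primrec.list_take.comp b a) d)
        (Primrec.list_drop.comp (Primrec.nat_add.comp b e) a)) a
  have h2 : Primrec (nxt X R) :=
    Primrec.list_append.comp
      (Primrec.list_map (Primrec.const X) (Primrec.list_append.comp Primrec.snd Primrec.fst).to₂)
      (Primrec.list_flatMap (Primrec.list_range.comp (Primrec.succ.comp Primrec.list_length))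
        (Primrec.list_map (Primrec.const R) h1.to₂).to₂)
  exact Primrec.list_append.comp Primrec.id
    (Primrec.list_flatMap Primrec.id (h2.comp Primrec.snd).to₂)

theorem search_computable [Primcodable β] (C : ℕ) :
    ComputablePred fun z : List β => [] ∈ (grow X R)^[C * (z.length + 1)] [z] := by
  have h1 : Primrec fun z : List β => (grow X R)^[C * (z.length + 1)] [z] :=
    Primrec.nat_iterate (Primrec.nat_mul.comp (Primrec.const C)
      (Primrec.succ.comp Primrec.list_length))
      (Primrec.list_cons.comp Primrec.id (Primrec.const [])) (grow_prim.comp Primrec.snd).to₂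
  have h2 : PrimrecPred fun a : List β => a = [] := Primrec.eq.comp Primrec.id (Primrec.const [])
  exact (h2.exists_mem_list.comp h1).computablePred.of_eq fun z => by simp

end Pool.Agent.MP_e50591_al.H50
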