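import Mathlib

/-!
Walks and chains in the Schreier graph of an action of a free group.
-/

namespace Pool.Agent.MP_e50591_al.H50

open Finsupp Submodule FreeGroup

theorem rank_bound {ε V : Type} (E : Finset ε) (W : Finset V)
    (bd : (ε →₀ ℤ) →ₗ[ℤ] (V →₀ ℤ)) (C : Finset (ε →₀ ℤ)) (hW : W.Nonempty)
    (h1 : ∀ e ∈ E, ∃ a ∈ W, ∃ b ∈ W, bd (single e 1) = single a 1 - single b 1)
    (h2 : ∀ z ∈ supported ℤ ℤ (E : Set ε), bd z = 0 → z ∈ span ℤ (C : Set (ε →₀ ℤ))) :
    E.card + 1 ≤ C.card + W.card := by
  classical
  obtain ⟨a₀, ha₀⟩ := hW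
  let A := supported ℤ ℤ (E : Set ε)
  let f := bd.domRestrict A
  have eA := supportedEquivFinsupp (M := ℤ) (R := ℤ) (E : Set ε)
  have : Module.Finite ℤ A := Module.Finite.equiv eA.symm
  have hA : Module.finrank ℤ A = E.card := by
    rw [eA.finrank_eq]; simp
  have hq := Submodule.finrank_quotient_add_finrank (LinearMap.ker f)
  rw [f.quotKerEquivRange.finrank_eq, hA] at hq
  have hk : Module.finrank ℤ (LinearMap.ker f) ≤ C.card := by
    rw [← Submodule.finrank_map_subtype_eq]
    refine (Submodule.finrank_mono (t := span ℤ (C : Set (ε →₀ ℤ))) ?_).trans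
      (finrank_span_finset_le_card C)
    rintro _ ⟨z, hz, rfl⟩
    exact h2 z z.2 hz
  let B : Finset (V →₀ ℤ) := (W.erase a₀).image fun a => single a 1 - single a₀ 1
  have hr : Module.finrank ℤ (LinearMap.range f) ≤ B.card := by
    refine (Submodule.finrank_mono (t := span ℤ (B : Set (V →₀ ℤ))) ?_).trans
      (finrank_span_finset_le_card B)
    have hB : ∀ a ∈ W, single a 1 - single a₀ 1 ∈ span ℤ (B : Set (V →₀ ℤ)) := by
      intro a ha
      by_cases h : a = a₀
      · simp [h]
      · exact subset_span (Finset.mem_coe.2 (Finset.mem_image_of_mem _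
          (Finset.mem_erase.2 ⟨h, ha⟩)))
    rintro _ ⟨⟨z, hz⟩, rfl⟩
    change bd z ∈ _
    simp only [A, supported_eq_span_single] at hz
    refine span_induction ?_ (by simp) (fun x y _ _ hx hy => ?_) (fun c x _ hx => ?_) hz
    · rintro _ ⟨e, he, rfl⟩
      obtain ⟨a, ha, b, hb, h⟩ := h1 e he
      rw [h, ← sub_sub_sub_cancel_right _ _ (single a₀ 1)]
      exact sub_mem (hB a ha) (hB b hb)
    · rw [map_add]; exact add_mem hx hy
    · rw [map_smul]; exact smul_mem _ _ hx
  have : B.card ≤ (W.erase a₀).card := Finset.card_image_le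
  have := Finset.card_erase_add_one ha₀
  omega

variable {α : Type} {V : Type} [MulAction (FreeGroup α) V]

/-- The inverse letter. -/
def bar (a : α × Bool) : α × Bool := (a.1, !a.2)

@[simp] lemma bar_bar (a : α × Bool) : bar (bar a) = a := by simp [bar]

lemma mk_bar (a : α × Bool) : mk [bar a] = (mk [a])⁻¹ := by
  rw [inv_mk]; rfl

lemma invRev_cons' (a : α × Bool) (l : List (α × Bool)) :
    invRev (a :: l) = invRev l ++ [bar a] := by
  rw [invRev_cons]; rfl

lemma mk_cons (a : α × Bool) (l : List (α × Bool)) : mk (a :: l) = mk [a] * mk l := by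
  rw [mul_mk]; rfl

/-- The end of the walk that starts at `y` and reads `l`. -/
def walk (y : V) (l : List (α × Bool)) : V := (mk l)⁻¹ • y

/-- One step of a walk. -/
def step (y : V) (a : α × Bool) : V := walk y [a]

@[simp] lemma walk_nil (y : V) : walk y ([] : List (α × Bool)) = y := by
  rw [walk, ← one_eq_mk]; simp

lemma walk_append (y : V) (l l' : List (α × Bool)) :
    walk y (l ++ l') = walk (walk y l) l' := by
  rw [walk, walk, walk, ← mul_mk, mul_inv_rev, mul_smul]

lemma walk_cons (y : V) (a : α × Bool) (l : List (α × Bool)) :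
    walk y (a :: l) = walk (step y a) l := walk_append y [a] l

@[simp] lemma step_bar (y : V) (a : α × Bool) : step (step y a) (bar a) = y := by
  rw [step, step, walk, walk, mk_bar, inv_inv, smul_inv_smul]

@[simp] lemma walk_invRev (y : V) (l : List (α × Bool)) : walk (walk y l) (invRev l) = y := by
  simp [walk, ← inv_mk]

/-- The geometric edge used by the step. -/
def edge (y : V) (a : α × Bool) : V × α := if a.2 then (y, a.1) else (step y a, a.1)

@[simp] lemma edge_bar (y : V) (a : α × Bool) : edge (step y a) (bar a) = edge y a := by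
  obtain ⟨x, b⟩ := a
  cases b
  · rfl
  · have := step_bar y (x, true)
    simp only [bar, Bool.not_true] at this
    simp [edge, bar, this]

lemma edge_eq {y y' : V} {a a' : α × Bool} (h : edge y a = edge y' a') :
    (y = y' ∧ a = a') ∨ (y = step y' a' ∧ a = bar a') := by
  obtain ⟨x, b⟩ := a
  obtain ⟨x', b'⟩ := a'
  cases b <;> cases b' <;> simp only [edge, Bool.false_eq_true, if_true, if_false,
    Prod.mk.injEq] at h <;> obtain ⟨h, rfl⟩ := h
  · left
    refine ⟨?_, rfl⟩
    rw [← step_bar y (x, false), h, step_bar]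
  · right
    refine ⟨?_, rfl⟩
    rw [← h]
    exact (step_bar y (x, false)).symm
  · exact Or.inr ⟨h, rfl⟩
  · exact Or.inl ⟨h, rfl⟩

/-- The sign of a letter. -/
def sgn (a : α × Bool) : ℤ := if a.2 then 1 else -1

lemma sgn_mul_self (a : α × Bool) : sgn a * sgn a = 1 := by
  unfold sgn; split_ifs <;> simp

/-- The chain of a walk. -/
noncomputable def ch : V → List (α × Bool) → (V × α →₀ ℤ)
  | _, [] => 0
  | y, a :: l => single (edge y a) (sgn a) + ch (step y a) l

/-- The edges of a walk. -/
def edges : V → List (α × Bool) → List (V × α)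
  | _, [] => []
  | y, a :: l => edge y a :: edges (step y a) l

lemma ch_append (y : V) (l l' : List (α × Bool)) :
    ch y (l ++ l') = ch y l + ch (walk y l) l' := by
  induction l generalizing y with
  | nil => simp [ch]
  | cons a l ih => simp [ch, ih, walk_cons, add_assoc]

lemma edges_append (y : V) (l l' : List (α × Bool)) :
    edges y (l ++ l') = edges y l ++ edges (walk y l) l' := by
  induction l generalizing y with
  | nil => simp [edges]
  | cons a l ih => simp [edges, ih, walk_cons]

lemma mem_edges {y : V} {l : List (α × Bool)} {e : V × α} :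
    e ∈ edges y l ↔ ∃ l₁ a l₂, l = l₁ ++ a :: l₂ ∧ e = edge (walk y l₁) a := by
  constructor
  · induction l generalizing y with
    | nil => simp [edges]
    | cons a l ih =>
      intro h
      rcases List.mem_cons.1 h with h | h
      · exact ⟨[], a, l, rfl, by simpa using h⟩
      · obtain ⟨l₁, b, l₂, rfl, h'⟩ := ih h
        exact ⟨a :: l₁, b, l₂, rfl, by rw [walk_cons]; exact h'⟩
  · rintro ⟨l₁, a, l₂, rfl, rfl⟩
    simp [edges_append, edges]

lemma mem_edges_invRev {y : V} {l : List (α × Bool)} {e : V × α} :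
    e ∈ edges (walk y l) (invRev l) → e ∈ edges y l := by
  induction l generalizing y with
  | nil => simp
  | cons a l ih =>
    rw [invRev_cons', edges_append, walk_cons, walk_invRev]
    intro h
    rcases List.mem_append.1 h with h | h
    · exact List.mem_cons_of_mem _ (ih h)
    · simp only [edges, edge_bar, List.mem_singleton] at h
      exact h ▸ List.mem_cons_self

lemma ch_apply_ne {y : V} {l : List (α × Bool)} {e : V × α} (h : ch y l e ≠ 0) :
    e ∈ edges y l := by
  induction l generalizing y with
  | nil => simp [ch] at h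
  | cons a l ih =>
    by_contra hne
    simp only [edges, List.mem_cons, not_or] at hne
    refine h ?_
    rw [ch, Finsupp.add_apply, single_eq_of_ne hne.1, zero_add]
    exact by_contra fun h => hne.2 (ih h)

lemma ch_congr (y : V) {l l' : List (α × Bool)} (h : mk l = mk l') : ch y l = ch y l' := by
  have h1 : ∀ {l l' : List (α × Bool)}, Red.Step l l' → ch y l = ch y l' := by
    rintro _ _ @⟨l₁, l₂, x, b⟩
    rw [ch_append, ch_append, ch, ch, ← add_assoc (single _ _)]
    have e1 := edge_bar (walk y l₁) (x, b)
    have e2 := step_bar (walk y l₁) (x, b)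
    simp only [bar] at e1 e2
    rw [e1, e2, ← single_add]
    cases b <;> simp [sgn]
  have h2 : ∀ {l l' : List (α × Bool)}, Red l l' → ch y l = ch y l' := by
    intro l l' h
    induction h with
    | refl => rfl
    | tail _ h ih => exact ih.trans (h1 h)
  obtain ⟨l₀, h3, h4⟩ := Red.exact.1 h
  exact (h2 h3).trans (h2 h4).symm

lemma ch_invRev (y : V) (l : List (α × Bool)) : ch (walk y l) (invRev l) = -ch y l := by
  have := ch_congr y (l := l ++ invRev l) (l' := []) (by
    rw [← mul_mk, ← inv_mk, mul_inv_cancel, one_eq_mk])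
  rw [ch_append, ch] at this
  exact eq_neg_of_add_eq_zero_right this

/-- The boundary map. -/
noncomputable def bd : (V × α →₀ ℤ) →ₗ[ℤ] (V →₀ ℤ) :=
  linearCombination ℤ fun e => single (step e.1 (e.2, true)) 1 - single e.1 1

lemma bd_edge (y : V) (a : α × Bool) :
    bd (single (edge y a) (sgn a)) = single (step y a) 1 - single y 1 := by
  obtain ⟨x, b⟩ := a
  cases b
  · have := step_bar y (x, false)
    simp only [bar, Bool.not_false] at this
    simp [bd, edge, sgn, this]
  · simp [bd, edge, sgn]

lemma bd_ch (y : V) (l : List (α × Bool)) : bd (ch y l) = single (walk y l) 1 - single y 1 := by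
  induction l generalizing y with
  | nil => simp [ch]
  | cons a l ih => rw [ch, map_add, bd_edge, ih, walk_cons]; abel

theorem cycle_span (o : V) (htr : ∀ y : V, ∃ l : List (α × Bool), walk o l = y)
    (S : Set (FreeGroup α)) (hS : ∀ g : FreeGroup α, g • o = o → g ∈ Subgroup.closure S)
    (hS' : ∀ g ∈ S, g • o = o) (M : Submodule ℤ (V × α →₀ ℤ))
    (hM : ∀ l, mk l ∈ S → ch o l ∈ M) (z : V × α →₀ ℤ) (hz : bd z = 0) : z ∈ M := by
  have h1 : ∀ g ∈ Subgroup.closure S, g • o = o ∧ ∀ l, mk l = g → ch o l ∈ M := by
    intro g hg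
    induction hg using Subgroup.closure_induction with
    | mem g hg => exact ⟨hS' g hg, fun l hl => hM l (hl ▸ hg)⟩
    | one => exact ⟨one_smul _ _, fun l hl => by
        rw [ch_congr o (hl.trans one_eq_mk), ch]; exact zero_mem _⟩
    | mul g h _ _ hg hh =>
      refine ⟨by rw [mul_smul, hh.1, hg.1], fun l hl => ?_⟩
      obtain ⟨lg⟩ := g
      obtain ⟨lh⟩ := h
      have e : walk o lg = o := inv_smul_eq_iff.2 hg.1.symm
      rw [ch_congr o (l' := lg ++ lh) hl, ch_append, e]
      exact add_mem (hg.2 lg rfl) (hh.2 lh rfl)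
    | inv g _ hg =>
      refine ⟨inv_smul_eq_iff.2 hg.1.symm, fun l hl => ?_⟩
      obtain ⟨lg⟩ := g
      have e : walk o lg = o := inv_smul_eq_iff.2 hg.1.symm
      have := ch_invRev o lg
      rw [e] at this
      rw [ch_congr o (l' := invRev lg) hl, this]
      exact neg_mem (hg.2 lg rfl)
  choose τ hτ using htr
  let T : (V →₀ ℤ) →ₗ[ℤ] (V × α →₀ ℤ) := linearCombination ℤ fun y => ch o (τ y)
  have h2 : ∀ z : V × α →₀ ℤ, z - T (bd z) ∈ M := by
    intro z
    induction z using Finsupp.induction_linear with
    | zero => simp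
    | add f g hf hg =>
      rw [map_add, map_add, add_sub_add_comm]; exact add_mem hf hg
    | single e c =>
      obtain ⟨y, x⟩ := e
      have e1 : walk o (τ y ++ [(x, true)]) = walk o (τ (step y (x, true))) := by
        rw [walk_append, hτ, hτ]; rfl
      have e2 : walk o (τ y ++ [(x, true)] ++ invRev (τ (step y (x, true)))) = o := by
        rw [walk_append, e1, walk_invRev]
      have := (h1 _ (hS _ (inv_smul_eq_iff.1 e2).symm)).2 _ rfl
      rw [ch_append, e1, ch_invRev, ch_append, hτ] at this
      have := M.smul_mem c this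
      convert this using 1
      simp [T, bd, ch, edge, sgn, smul_add, smul_sub]
      abel
  simpa [hz] using h2 z

end Pool.Agent.MP_e50591_al.H50
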