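import Pool.Agent.MP_e50591_al.H50.Chain

/-!
The counting inequality of a stacking.
-/

namespace Pool.Agent.MP_e50591_al.H50

open Finsupp Submodule FreeGroup
open scoped Classical

variable {α : Type} {V : Type} [MulAction (FreeGroup α) V] {m : ℕ} {U : ZMod m → α × Bool}
  {K : Type} [LinearOrder K] {κ eh : ZMod m → K} {S : Finset (V × ZMod m)}

/-- Heights of vertex positions and of edge positions of a cyclic word that form a stacking. -/
structure Stk (U : ZMod m → α × Bool) (κ eh : ZMod m → K) : Prop where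
  red : ∀ j, U (j + 1) ≠ bar (U j)
  inj : Function.Injective κ
  a1 : ∀ i j, U i = U j → (eh i ≤ eh j ↔ κ i ≤ κ j) ∧ (eh i ≤ eh j ↔ κ (i + 1) ≤ κ (j + 1))
  a2 : ∀ i j, U i = bar (U j) → (eh i ≤ eh j ↔ κ i ≤ κ (j + 1)) ∧ (eh i ≤ eh j ↔ κ (i + 1) ≤ κ j)

lemma Stk.dual (h : Stk U κ eh) : Stk (K := Kᵒᵈ) U κ eh :=
  ⟨h.red, h.inj, fun i j e => h.a1 j i e.symm,
    fun i j e => (h.a2 j i (by rw [e, bar_bar])).symm⟩

/-- The successor of a strand. -/
def nx (U : ZMod m → α × Bool) (s : V × ZMod m) : V × ZMod m := (step s.1 (U s.2), s.2 + 1)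

/-- The edge below a strand. -/
def ed (U : ZMod m → α × Bool) (s : V × ZMod m) : V × α := edge s.1 (U s.2)

lemma nx_injective : Function.Injective (nx (V := V) U) := by
  rintro ⟨y, j⟩ ⟨y', j'⟩ h
  simp only [nx, Prod.mk.injEq, add_left_inj] at h
  obtain ⟨h, rfl⟩ := h
  rw [← step_bar y (U j), h, step_bar]

lemma ed_eq {s s' : V × ZMod m} (h : ed U s' = ed U s) :
    (s'.1 = s.1 ∧ (nx U s').1 = (nx U s).1 ∧ U s'.2 = U s.2) ∨
      (s'.1 = (nx U s).1 ∧ (nx U s').1 = s.1 ∧ U s'.2 = bar (U s.2)) := by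
  rcases edge_eq h with ⟨h1, h2⟩ | ⟨h1, h2⟩
  · exact Or.inl ⟨h1, by simp [nx, h1, h2], h2⟩
  · exact Or.inr ⟨h1, by simp [nx, h1, h2], h2⟩

/-- The strand is the highest one above its vertex. -/
def TopV (κ : ZMod m → K) (S : Finset (V × ZMod m)) (s : V × ZMod m) : Prop :=
  ∀ s' ∈ S, s'.1 = s.1 → κ s'.2 ≤ κ s.2

/-- The strand is the highest one above its edge. -/
def TopE (U : ZMod m → α × Bool) (eh : ZMod m → K) (S : Finset (V × ZMod m))
    (s : V × ZMod m) : Prop :=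
  ∀ s' ∈ S, ed U s' = ed U s → eh s'.2 ≤ eh s.2

lemma TopV.topE (h : Stk U κ eh) (hS : ∀ s ∈ S, nx U s ∈ S) {s : V × ZMod m}
    (ht : TopV κ S s) : TopE U eh S s := by
  intro s' hs' e
  rcases ed_eq e with ⟨h1, -, h3⟩ | ⟨-, h2, h3⟩
  · exact (h.a1 _ _ h3).1.2 (ht s' hs' h1)
  · exact (h.a2 _ _ h3).2.2 (ht _ (hS s' hs') h2)

lemma TopV.topE' (h : Stk U κ eh) (hS : ∀ s ∈ S, nx U s ∈ S) {s : V × ZMod m}
    (ht : TopV κ S (nx U s)) : TopE U eh S s := by
  intro s' hs' e
  rcases ed_eq e with ⟨-, h2, h3⟩ | ⟨h1, -, h3⟩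
  · exact (h.a1 _ _ h3).2.2 (ht _ (hS s' hs') h2)
  · exact (h.a2 _ _ h3).1.2 (ht s' hs' h1)

omit [MulAction (FreeGroup α) V] in
lemma topV_injOn (h : Stk U κ eh) {s s' : V × ZMod m} (hs : s ∈ S) (hs' : s' ∈ S)
    (ht : TopV κ S s) (ht' : TopV κ S s') (e : s.1 = s'.1) : s = s' :=
  Prod.ext e (h.inj (le_antisymm (ht' s hs e) (ht s' hs' e.symm)))

lemma card_top {β : Type} [DecidableEq β] (f : V × ZMod m → β) (g : V × ZMod m → K)
    (hinj : ∀ s ∈ S, ∀ s' ∈ S, f s = f s' → g s = g s' → s = s') :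
    (S.filter fun s => ∀ s' ∈ S, f s' = f s → g s' ≤ g s).card = (S.image f).card := by
  rw [← Finset.card_image_of_injOn (f := f)]
  · congr 1
    ext b
    simp only [Finset.mem_image, Finset.mem_filter]
    constructor
    · rintro ⟨s, ⟨h, -⟩, rfl⟩
      exact ⟨s, h, rfl⟩
    · rintro ⟨s, h, rfl⟩
      obtain ⟨t, h1, h2⟩ := (S.filter fun t => f t = f s).exists_max_image g ⟨s, by simp [h]⟩
      obtain ⟨h1, h3⟩ := Finset.mem_filter.1 h1
      exact ⟨t, ⟨h1, fun s' hs' e => h2 s' (Finset.mem_filter.2 ⟨hs', e.trans h3⟩)⟩, h3⟩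
  · intro s hs s' hs' e
    simp only [Finset.coe_filter, Set.mem_ofPred_eq] at hs hs'
    exact hinj s hs.1 s' hs'.1 e (le_antisymm (hs'.2 s hs.1 e) (hs.2 s' hs'.1 e.symm))

/-- The right ends of the visible arcs. -/
noncomputable def dfc (U : ZMod m → α × Bool) (κ eh : ZMod m → K) (S : Finset (V × ZMod m)) :
    Finset (V × ZMod m) := S.filter fun s => TopE U eh S s ∧ ¬ TopV κ S (nx U s)

lemma card_dfc (h : Stk U κ eh) (hS : ∀ s ∈ S, nx U s ∈ S) :
    (dfc U κ eh S).card + (S.image Prod.fst).card = (S.image (ed U)).card := by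
  have h1 : (S.filter (TopV κ S)).card = (S.image Prod.fst).card := by
    rw [← card_top (S := S) Prod.fst (fun s => κ s.2) fun s _ s' _ e e' => Prod.ext e (h.inj e')]
    refine congrArg Finset.card (Finset.ext fun s => ?_)
    simp only [Finset.mem_filter, TopV]
  have h2 : (S.filter (TopE U eh S)).card = (S.image (ed U)).card := by
    rw [← card_top (S := S) (ed U) (fun s => eh s.2) fun s _ s' _ e e' => ?_]
    · refine congrArg Finset.card (Finset.ext fun s => ?_)
      simp only [Finset.mem_filter, TopE]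
    rcases ed_eq e with ⟨h1, -, h3⟩ | ⟨h1, -, h3⟩
    · exact Prod.ext h1 (h.inj (le_antisymm ((h.a1 _ _ h3).1.1 e'.le)
        ((h.a1 _ _ h3.symm).1.1 e'.ge)))
    · have := h.inj (le_antisymm ((h.a2 _ _ h3).1.1 e'.le)
        ((h.a2 _ _ (by rw [h3, bar_bar])).2.1 e'.ge))
      exact absurd (this ▸ h3) (h.red _)
  have h3 : S.image (nx U) = S := Finset.eq_of_subset_of_card_le
    (Finset.image_subset_iff.2 hS) (Finset.card_image_of_injective _ nx_injective).ge
  have h4 : (S.filter fun s => TopV κ S (nx U s)).card = (S.filter (TopV κ S)).card := by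
    rw [← Finset.card_image_of_injective _ (nx_injective (U := U))]
    congr 1
    ext t
    simp only [Finset.mem_image, Finset.mem_filter]
    constructor
    · rintro ⟨s, ⟨h5, h6⟩, rfl⟩
      exact ⟨hS s h5, h6⟩
    · rintro ⟨h5, h6⟩
      obtain ⟨s, h7, rfl⟩ := Finset.mem_image.1 (h3.symm ▸ h5)
      exact ⟨s, ⟨h7, h6⟩, rfl⟩
  have h5 := Finset.card_filter_add_card_filter_not (s := S.filter (TopE U eh S))
    fun s => TopV κ S (nx U s)
  rw [Finset.filter_filter, Finset.filter_filter] at h5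
  rw [← h1, ← h2, ← h4, ← h5, add_comm]
  congr 2
  exact Finset.filter_congr fun s _ => ⟨fun e => ⟨e.topE' h hS, e⟩, fun e => e.2⟩

/-- The strands that enter a vertex where a path can end or leave the circles. -/
noncomputable def brk (U : ZMod m → α × Bool) (κ : ZMod m → K) (S : Finset (V × ZMod m))
    (EP : Finset (V × α)) (T : Finset V) : Finset (V × ZMod m) :=
  S.filter fun s => TopV κ S (nx U s) ∧ ((nx U s).1 ∈ T ∨
    ∃ a, edge (nx U s).1 a ∈ EP ∧ edge (nx U s).1 a ∉ S.image (ed U))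

lemma mem_fst_of_edge (hS : ∀ s ∈ S, nx U s ∈ S) {y : V} {a : α × Bool}
    (h : edge y a ∈ S.image (ed U)) : y ∈ S.image Prod.fst := by
  obtain ⟨s, hs, e⟩ := Finset.mem_image.1 h
  rcases edge_eq e.symm with ⟨h1, -⟩ | ⟨h1, -⟩
  · exact Finset.mem_image.2 ⟨s, hs, h1.symm⟩
  · exact Finset.mem_image.2 ⟨_, hS s hs, h1.symm⟩

theorem count (h : Stk U κ eh) (hS : ∀ s ∈ S, nx U s ∈ S) (EP : Finset (V × α)) (T : Finset V)
    (hne : EP.Nonempty)
    (hdeg : ∀ y a, edge y a ∈ EP → y ∉ T → ∃ a', a' ≠ a ∧ edge y a' ∈ EP)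
    (C : Finset (V × α →₀ ℤ))
    (good : ∀ z ∈ supported ℤ ℤ ((S.image (ed U) ∪ EP : Finset (V × α)) : Set (V × α)),
      bd z = 0 → z ∈ span ℤ (C : Set (V × α →₀ ℤ))) :
    (dfc U κ eh S).card + (dfc (K := Kᵒᵈ) U κ eh S).card + (brk U κ S EP T).card + 2 ≤
      2 * C.card + T.card := by
  set EG := S.image (ed U)
  set VG := S.image Prod.fst
  set Eb := EP \ EG
  set HE : Finset (V × α × Bool) := Eb.image (fun e => (e.1, (e.2, true))) ∪
    Eb.image fun e => (step e.1 (e.2, true), (e.2, false)) with hHE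
  have mHE : ∀ y a, (y, a) ∈ HE ↔ edge y a ∈ Eb := by
    rintro y ⟨x, b⟩
    simp only [hHE, Finset.mem_union, Finset.mem_image, Prod.mk.injEq]
    constructor
    · rintro (⟨e, he, rfl, rfl, rfl⟩ | ⟨e, he, rfl, rfl, rfl⟩)
      · exact he
      · exact (edge_bar e.1 (e.2, true)).symm ▸ he
    · intro he
      cases b
      · exact Or.inr ⟨_, he, step_bar y (x, false), rfl, rfl⟩
      · exact Or.inl ⟨_, he, rfl, rfl, rfl⟩
  have cHE : HE.card ≤ 2 * Eb.card := (Finset.card_union_le _ _).trans (by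
    have := Finset.card_image_le (s := Eb) (f := fun e => (e.1, (e.2, true)))
    have := Finset.card_image_le (s := Eb) (f := fun e => (step e.1 (e.2, true), (e.2, false)))
    omega)
  set I := HE.image Prod.fst
  have mW : ∀ y a, edge y a ∈ EG ∪ EP → y ∈ VG ∪ I := by
    intro y a he
    by_cases h1 : edge y a ∈ EG
    · exact Finset.mem_union_left _ (mem_fst_of_edge hS h1)
    · exact Finset.mem_union_right _ (Finset.mem_image.2 ⟨(y, a), (mHE y a).2
        (Finset.mem_sdiff.2 ⟨(Finset.mem_union.1 he).resolve_left h1, h1⟩), rfl⟩)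
  have r := rank_bound (EG ∪ EP) (VG ∪ I) bd C (by
      obtain ⟨e, he⟩ := hne
      exact ⟨_, mW e.1 (e.2, true) (Finset.mem_union_right _ he)⟩) (fun e he =>
    ⟨_, mW (step e.1 (e.2, true)) (bar (e.2, true)) (by rw [edge_bar]; exact he), _,
      mW e.1 (e.2, true) he, bd_edge e.1 (e.2, true)⟩) good
  have c1 : (EG ∪ EP).card = EG.card + Eb.card := by
    rw [Finset.union_comm, ← Finset.card_sdiff_add_card, add_comm]
  have c2 : (VG ∪ I).card = VG.card + (I \ VG).card := by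
    rw [Finset.union_comm, ← Finset.card_sdiff_add_card, add_comm]
  have c3 : _ + VG.card = EG.card := card_dfc h hS
  have c4 : _ + VG.card = EG.card := card_dfc h.dual hS
  have c5 : (brk U κ S EP T).card ≤ (T ∩ VG).card + (I ∩ VG).card := by
    refine le_trans (Finset.card_le_card_of_injOn (t := T ∩ VG ∪ I ∩ VG) (fun s => (nx U s).1)
      ?_ ?_) (Finset.card_union_le _ _)
    · intro s hs
      obtain ⟨h1, -, h2⟩ := Finset.mem_filter.1 (Finset.mem_coe.1 hs)
      have h3 : (nx U s).1 ∈ VG := Finset.mem_image_of_mem _ (hS s h1)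
      rcases h2 with h2 | ⟨a, h2⟩
      · simp [h2, h3]
      · have : (nx U s).1 ∈ I := Finset.mem_image.2
          ⟨(_, a), (mHE _ a).2 (Finset.mem_sdiff.2 h2), rfl⟩
        simp [this, h3]
    · intro s hs s' hs' e
      obtain ⟨h1, h2, -⟩ := Finset.mem_filter.1 (Finset.mem_coe.1 hs)
      obtain ⟨h3, h4, -⟩ := Finset.mem_filter.1 (Finset.mem_coe.1 hs')
      exact nx_injective (topV_injOn h (hS s h1) (hS s' h3) h2 h4 e)
  have c6 : HE.card = ∑ y ∈ I, (HE.filter fun p => p.1 = y).card :=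
    Finset.card_eq_sum_card_fiberwise fun p hp => Finset.mem_image_of_mem _ hp
  have c7 : I.card + ((I \ VG) \ T).card ≤ HE.card := by
    have : ((I \ VG) \ T).card = ∑ y ∈ I, if y ∈ (I \ VG) \ T then 1 else 0 := by
      rw [Finset.sum_ite_mem, Finset.inter_eq_right.2
        (Finset.sdiff_subset.trans Finset.sdiff_subset), Finset.card_eq_sum_ones]
    rw [c6, this, Finset.card_eq_sum_ones, ← Finset.sum_add_distrib]
    refine Finset.sum_le_sum fun y hy => ?_
    obtain ⟨⟨y, a⟩, hp, rfl⟩ := Finset.mem_image.1 hy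
    split_ifs with h1
    · simp only [Finset.mem_sdiff] at h1
      obtain ⟨a', h2, h3⟩ := hdeg y a (Finset.mem_sdiff.1 ((mHE y a).1 hp)).1 h1.2
      refine Finset.one_lt_card.2 ⟨(y, a'), Finset.mem_filter.2 ⟨(mHE y a').2
        (Finset.mem_sdiff.2 ⟨h3, fun h4 => h1.1.2 (mem_fst_of_edge hS h4)⟩), rfl⟩, (y, a),
        Finset.mem_filter.2 ⟨hp, rfl⟩, by simpa using h2⟩
    · exact Finset.card_pos.2 ⟨(y, a), Finset.mem_filter.2 ⟨hp, rfl⟩⟩
  have c8 := Finset.card_sdiff_add_card_inter I VG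
  have c9 := Finset.card_sdiff_add_card_inter (I \ VG) T
  have c10 := Finset.card_sdiff_add_card_inter T VG
  have c11 : ((I \ VG) ∩ T).card ≤ (T \ VG).card := Finset.card_le_card fun y hy => by
    simp only [Finset.mem_inter, Finset.mem_sdiff] at hy ⊢
    exact ⟨hy.2, hy.1.2⟩
  omega

end Pool.Agent.MP_e50591_al.H50
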