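import Pool.Agent.MP_e50591_al.H50.Shell

/-!
The spelling theorem of B. B. Newman and a fellow travelling property.
-/

namespace Pool.Agent.MP_e50591_al.H50

open Finsupp FreeGroup
open Submodule (span subset_span span_le mem_sup mem_sup_left mem_sup_right)
open scoped Classical

variable {α : Type} {m : ℕ} {U : ZMod m → α × Bool}
  {K : Type} [LinearOrder K] {κ eh : ZMod m → K} {D : ℕ}

lemma ne_bar_iff {a b : α × Bool} : b ≠ bar a ↔ (a.1 = b.1 → a.2 = b.2) := by
  obtain ⟨x, s⟩ := a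
  obtain ⟨y, t⟩ := b
  cases s <;> cases t <;> simp [bar, eq_comm]

lemma seg_reduced (h : ∀ j, U (j + 1) ≠ bar (U j)) (j : ZMod m) (L : ℕ) :
    IsReduced (seg U j L) := by
  induction L generalizing j with
  | zero => exact IsReduced.nil
  | succ L ih =>
    cases L with
    | zero => exact IsReduced.singleton
    | succ L => exact List.isChain_cons_cons.2 ⟨ne_bar_iff.1 (h j), ih (j + 1)⟩

lemma invRev_reduced {l : List (α × Bool)} (h : IsReduced l) : IsReduced (invRev l) := by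
  rw [isReduced_iff_not_step] at h ⊢
  exact fun l' hl => h _ (by simpa using hl.invRev)

lemma good_of (hD : 0 < D) (hmD : m ∣ D) {V : Type} [MulAction (FreeGroup α) V] (o : V)
    (htr : ∀ y : V, ∃ l : List (α × Bool), walk o l = y) (C : Finset (FreeGroup α))
    (fix : ∀ g : FreeGroup α, g • o = o ↔
      g ∈ Subgroup.closure ((fun c => c * mk (seg U 0 D) * c⁻¹) '' C)) :
    ∃ S : Finset (V × ZMod m), ∀ EP, Good U D EP S := by
  have wk : ∀ c ∈ C, walk (c⁻¹ • o) (seg U 0 D) = c⁻¹ • o := fun c hc => by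
    have := (fix _).2 (inv_mem (Subgroup.subset_closure ⟨c, hc, rfl⟩))
    rw [walk, eq_inv_smul_iff, smul_smul, smul_smul]
    rwa [mul_inv_rev, mul_inv_rev, inv_inv, ← mul_assoc] at this
  have per : ∀ c ∈ C, (nx U)^[D] (c⁻¹ • o, 0) = (c⁻¹ • o, 0) := fun c hc => by
    rw [iter_nx, wk c hc, (ZMod.natCast_eq_zero_iff _ _).2 hmD, add_zero]
  refine ⟨C.biUnion fun c => orb U D (c⁻¹ • o, 0),
    fun EP => ⟨fun s hs => ?_, fun s hs => ?_, fun z _ hz => ?_⟩⟩
  · obtain ⟨c, hc, h⟩ := Finset.mem_biUnion.1 hs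
    obtain ⟨t, rfl⟩ := (mem_orb hD (per c hc)).1 h
    exact Finset.mem_biUnion.2 ⟨c, hc, (mem_orb hD (per c hc)).2
      ⟨t + 1, Function.iterate_succ_apply' _ _ _⟩⟩
  · obtain ⟨c, hc, h⟩ := Finset.mem_biUnion.1 hs
    obtain ⟨t, rfl⟩ := (mem_orb hD (per c hc)).1 h
    exact per_iter (per c hc) t
  · refine cycle_span o htr ((fun c => c * mk (seg U 0 D) * c⁻¹) '' C)
      (fun g hg => (fix g).1 hg) (fun g hg => (fix g).2 (Subgroup.subset_closure hg)) _ ?_ z hz
    rintro l ⟨c, hc, e⟩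
    have e1 : walk o c.toWord = c⁻¹ • o := by rw [walk, mk_toWord]
    rw [ch_congr _ (l' := c.toWord ++ seg U 0 D ++ invRev c.toWord) (by
      rw [← e, ← mul_mk, ← mul_mk, ← inv_mk, mk_toWord]), ch_append, ch_append, walk_append,
      e1, wk c hc, ← e1, ch_invRev, add_neg_cancel_comm, e1]
    exact subset_span (Finset.mem_coe.2 (Finset.mem_image.2 ⟨_, Finset.mem_biUnion.2
      ⟨c, hc, (mem_orb hD (per c hc)).2 ⟨0, rfl⟩⟩, rfl⟩))

theorem setup (hD : 0 < D) (hmD : m ∣ D) {v z : List (α × Bool)}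
    (hg : mk v * (mk z)⁻¹ ∈ Subgroup.normalClosure {mk (seg U 0 D)}) :
    ∃ (V : Type) (_ : MulAction (FreeGroup α) V) (o : V), walk o v = walk o z ∧
      (∀ l l', walk o l = walk o l' →
        mk l * (mk l')⁻¹ ∈ Subgroup.normalClosure {mk (seg U 0 D)}) ∧
      (∀ y : V, ∃ l : List (α × Bool), walk o l = y) ∧
      ∃ S : Finset (V × ZMod m), ∀ EP, Good U D EP S := by
  obtain ⟨C, hC⟩ : ∃ C : Finset (FreeGroup α),
      mk v * (mk z)⁻¹ ∈ Subgroup.closure ((fun c => c * mk (seg U 0 D) * c⁻¹) '' C) := by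
    generalize mk v * (mk z)⁻¹ = g at hg
    induction hg using Subgroup.closure_induction with
    | mem g hg =>
      obtain ⟨a, rfl, h⟩ := Group.mem_conjugatesOfSet_iff.1 hg
      obtain ⟨c, rfl⟩ := isConj_iff.1 h
      exact ⟨{c}, Subgroup.subset_closure (by simp)⟩
    | one => exact ⟨∅, one_mem _⟩
    | mul g h _ _ hg hh =>
      obtain ⟨C, hC⟩ := hg
      obtain ⟨C', hC'⟩ := hh
      exact ⟨C ∪ C', mul_mem (Subgroup.closure_mono (Set.image_mono (by simp)) hC)
        (Subgroup.closure_mono (Set.image_mono (by simp)) hC')⟩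
    | inv g _ hg => exact hg.imp fun C hC => inv_mem hC
  obtain ⟨H, hH⟩ : ∃ H, H = Subgroup.closure ((fun c => c * mk (seg U 0 D) * c⁻¹) '' C) :=
    ⟨_, rfl⟩
  have h1 : ∀ l l' : List (α × Bool), walk (QuotientGroup.mk 1 : FreeGroup α ⧸ H) l =
      walk (QuotientGroup.mk 1 : FreeGroup α ⧸ H) l' ↔ mk l * (mk l')⁻¹ ∈ H := fun l l' => by
    rw [walk, walk, MulAction.Quotient.smul_coe, MulAction.Quotient.smul_coe, QuotientGroup.eq]
    simp only [smul_eq_mul, mul_one, inv_inv]
  have h2 : H ≤ Subgroup.normalClosure {mk (seg U 0 D)} := by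
    rw [hH, Subgroup.closure_le]
    rintro _ ⟨c, -, rfl⟩
    exact Subgroup.normalClosure_normal.conj_mem _
      (Subgroup.subset_normalClosure (Set.mem_singleton _)) c
  have h3 : ∀ y : FreeGroup α ⧸ H, ∃ l : List (α × Bool),
      walk (QuotientGroup.mk 1 : FreeGroup α ⧸ H) l = y := fun y => by
    obtain ⟨c, rfl⟩ := QuotientGroup.mk_surjective y
    exact ⟨c⁻¹.toWord, by rw [walk, mk_toWord, inv_inv, MulAction.Quotient.smul_coe]; simp⟩
  refine ⟨FreeGroup α ⧸ H, inferInstance, QuotientGroup.mk 1, (h1 v z).2 (by rwa [hH]),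
    fun l l' e => h2 ((h1 l l').1 e), h3, good_of hD hmD _ h3 C fun g => ?_⟩
  rw [← hH, MulAction.Quotient.smul_coe, eq_comm, QuotientGroup.eq]
  simp

section Paths

variable {V : Type} [MulAction (FreeGroup α) V] {EP : Finset (V × α)} {T : Finset V}

lemma follow (L : ℕ) : ∀ (s : V × ZMod m) (l : List (α × Bool)),
    (∀ i, i + 1 < L + 1 → ((nx U)^[i + 1] s).1 ∉ T ∧ ∀ a, edge ((nx U)^[i + 1] s).1 a ∈ EP →
      a = U ((nx U)^[i + 1] s).2 ∨ a = bar (U ((nx U)^[i] s).2)) →
    IsReduced (U s.2 :: l) → (∀ e ∈ edges s.1 (U s.2 :: l), e ∈ EP) →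
    walk s.1 (U s.2 :: l) ∈ T → seg U s.2 (L + 1) <+: U s.2 :: l := by
  induction L with
  | zero => intro s l _ _ _ _; simp [seg]
  | succ L ih =>
    intro s l h hr he hT
    obtain ⟨h1, h2⟩ := h 0 (by omega)
    cases l with
    | nil => exact absurd hT h1
    | cons a l =>
      obtain ⟨hr1, hr2⟩ := List.isChain_cons_cons.1 hr
      obtain rfl := (h2 a (he _ (by simp [edges, nx]))).resolve_right (ne_bar_iff.2 hr1)
      rw [seg, List.cons_prefix_cons]
      exact ⟨rfl, ih (nx U s) l (fun i hi => h (i + 1) (by omega)) hr2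
        (fun e h => he e (List.mem_cons_of_mem _ h)) (by rwa [walk_cons] at hT)⟩

lemma extend {o y : V} {v : List (α × Bool)} {a : α × Bool} (h : edge y a ∈ edges o v) :
    ∃ l, (a :: l <:+ v ∧ walk y (a :: l) = walk o v ∨ a :: l <:+ invRev v ∧ walk y (a :: l) = o) ∧
      ∀ e ∈ edges y (a :: l), e ∈ edges o v := by
  obtain ⟨l₁, b, l₂, rfl, e⟩ := mem_edges.1 h
  rcases edge_eq e with ⟨rfl, rfl⟩ | ⟨rfl, rfl⟩
  · exact ⟨l₂, Or.inl ⟨List.suffix_append _ _, (walk_append _ _ _).symm⟩,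
      fun e h => by rw [edges_append]; exact List.mem_append_right _ h⟩
  · have e1 : bar b :: invRev l₁ = invRev (l₁ ++ [b]) := by rw [invRev_append]; rfl
    have e2 : step (walk o l₁) b = walk o (l₁ ++ [b]) := (walk_append _ _ _).symm
    have e3 : l₁ ++ b :: l₂ = l₁ ++ [b] ++ l₂ := by simp
    refine ⟨invRev l₁, Or.inr ⟨?_, by rw [e1, e2, walk_invRev]⟩, fun e h => ?_⟩
    · rw [e1, e3, invRev_append (L₂ := l₂)]
      exact List.suffix_append _ _
    · rw [e1, e2] at h
      rw [e3, edges_append]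
      exact List.mem_append_left _ (mem_edges_invRev h)

end Paths

/-- The word contains a long arc of the relator or of its inverse. -/
def Arc (U : ZMod m → α × Bool) (L : ℕ) (v : List (α × Bool)) : Prop :=
  ∃ j, seg U j L <:+: v ∨ seg U j L <:+: invRev v

variable [NeZero m]

theorem two_paths (h : Stk U κ eh) (hD : 0 < D) {V : Type} [MulAction (FreeGroup α) V]
    {S₀ : Finset (V × ZMod m)} (h₀ : ∀ EP, Good U D EP S₀) (o : V) {v z : List (α × Bool)}
    (hv : IsReduced v) (hz : IsReduced z) (hne : v ≠ [] ∨ z ≠ []) (he : walk o v = walk o z)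
    (av : ¬ Arc U (D - m + 1) v) (az : ¬ Arc U (D - m + 1) z) :
    walk o v ≠ o ∧ (2 * m ≤ D → (∀ s : V × ZMod m, ∀ t, 1 ≤ t → t < D → (nx U)^[t] s ≠ s) →
      ∃ S, Good U D (edges o v ++ edges o z).toFinset S ∧
        ∀ s ∈ S, ∃ t, ed U ((nx U)^[t] s) ∈ edges o v ++ edges o z) := by
  have ext : ∀ y a, edge y a ∈ (edges o v ++ edges o z).toFinset → ∃ l,
      (a :: l <:+ v ∨ a :: l <:+ invRev v ∨ a :: l <:+ z ∨ a :: l <:+ invRev z) ∧
      IsReduced (a :: l) ∧ walk y (a :: l) ∈ ({o, walk o v} : Finset V) ∧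
      ∀ e ∈ edges y (a :: l), e ∈ (edges o v ++ edges o z).toFinset := by
    intro y a h
    rcases List.mem_append.1 (List.mem_toFinset.1 h) with h | h
    · obtain ⟨l, h1 | h1, h2⟩ := extend h
      · exact ⟨l, Or.inl h1.1, List.IsChain.suffix hv h1.1, by simp [h1.2], fun e h => by simp [h2 e h]⟩
      · exact ⟨l, Or.inr (Or.inl h1.1), List.IsChain.suffix (invRev_reduced hv) h1.1, by simp [h1.2],
          fun e h => by simp [h2 e h]⟩
    · obtain ⟨l, h1 | h1, h2⟩ := extend h
      · exact ⟨l, Or.inr (Or.inr (Or.inl h1.1)), List.IsChain.suffix hz h1.1, by simp [h1.2, he],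
          fun e h => by simp [h2 e h]⟩
      · exact ⟨l, Or.inr (Or.inr (Or.inr h1.1)), List.IsChain.suffix (invRev_reduced hz) h1.1,
          by simp [h1.2], fun e h => by simp [h2 e h]⟩
  rcases dichotomy (T := {o, walk o v}) h hD (h₀ (edges o v ++ edges o z).toFinset) (by
      rcases hne with h | h <;> obtain ⟨a, l, rfl⟩ := List.exists_cons_of_ne_nil h <;>
        exact ⟨edge o a, by simp [edges]⟩) (by
      intro y a h1 h2
      obtain ⟨l, -, g1, g2, g3⟩ := ext (step y a) (bar a) (by rwa [edge_bar])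
      cases l with
      | nil => exact absurd (by simpa [walk_cons] using g2) h2
      | cons a' l =>
        exact ⟨a', by simpa using ne_bar_iff.2 (List.isChain_cons_cons.1 g1).1,
          g3 _ (by simp [edges])⟩) with ⟨s, h1, h2⟩ | ⟨h1, h2⟩
  · exfalso
    obtain ⟨l, g0, g1, g2, g3⟩ := ext s.1 (U s.2) h1
    have := (follow (D - m) s l h2 g1 g3 g2).isInfix
    rcases g0 with g | g | g | g
    · exact av ⟨_, Or.inl (this.trans g.isInfix)⟩
    · exact av ⟨_, Or.inr (this.trans g.isInfix)⟩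
    · exact az ⟨_, Or.inl (this.trans g.isInfix)⟩
    · exact az ⟨_, Or.inr (this.trans g.isInfix)⟩
  · refine ⟨fun e => by simp [e] at h1, fun g1 g2 => ?_⟩
    simpa only [List.mem_toFinset] using h2 Finset.card_le_two g1 g2

omit [NeZero m] in
lemma Arc.le {L : ℕ} {v : List (α × Bool)} (h : Arc U L v) : L ≤ v.length := by
  obtain ⟨j, h | h⟩ := h <;> simpa using h.length_le

/-- The spelling theorem. -/
theorem newman (h : Stk U κ eh) (hD : 0 < D) (hmD : m ∣ D) {v : List (α × Bool)}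
    (hv : IsReduced v) (hne : v ≠ []) (hN : mk v ∈ Subgroup.normalClosure {mk (seg U 0 D)}) :
    Arc U (D - m + 1) v := by
  obtain ⟨V, _, o, e, -, -, S, h3⟩ := setup hD hmD (v := v) (z := [])
    (by rwa [← one_eq_mk, inv_one, mul_one])
  by_contra av
  exact (two_paths h hD h3 _ hv IsReduced.nil (Or.inl hne) e av fun a => by simpa using a.le).1
    (by simpa using e)

section Cut

variable {V : Type} [MulAction (FreeGroup α) V]

/-- Both ends of the edge are close to one vertex of the path. -/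
def Touch (D : ℕ) (o : V) (z : List (α × Bool)) (e : V × α) : Prop :=
  ∃ i ≤ z.length, ∀ y, y = e.1 ∨ y = step e.1 (e.2, true) →
    ∃ x : List (α × Bool), x.length ≤ D ∧ walk (walk o (z.take i)) x = y

lemma ends_edge {y y' : V} {a : α × Bool}
    (h : y' = (edge y a).1 ∨ y' = step (edge y a).1 ((edge y a).2, true)) :
    y' = y ∨ y' = step y a := by
  obtain ⟨x, b⟩ := a
  cases b
  · exact h.symm.imp_left fun e => e.trans (step_bar y (x, false))
  · exact h

lemma touch_of_mem (hD : 0 < D) {o : V} {z : List (α × Bool)} {e : V × α} (h : e ∈ edges o z) :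
    Touch D o z e := by
  obtain ⟨l₁, a, l₂, rfl, rfl⟩ := mem_edges.1 h
  refine ⟨l₁.length, by simp, fun y hy => ?_⟩
  rw [List.take_left]
  rcases ends_edge hy with rfl | rfl
  · exact ⟨[], by simp, by simp⟩
  · exact ⟨[a], hD, rfl⟩

omit [NeZero m] in
lemma touch_of_orb (hD : 0 < D) {o : V} {z : List (α × Bool)} {s : V × ZMod m}
    (hs : (nx U)^[D] s = s) {t : ℕ} (h : ed U ((nx U)^[t] s) ∈ edges o z) (i : ℕ) :
    Touch D o z (ed U ((nx U)^[i] s)) := by
  obtain ⟨l₁, a, l₂, rfl, e⟩ := mem_edges.1 h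
  refine ⟨l₁.length, by simp, fun y hy => ?_⟩
  rw [List.take_left]
  obtain ⟨t', e1⟩ : ∃ t', walk o l₁ = ((nx U)^[t'] s).1 := by
    rcases edge_eq e.symm with ⟨e, -⟩ | ⟨e, -⟩
    · exact ⟨t, e⟩
    · exact ⟨t + 1, by rw [Function.iterate_succ_apply']; exact e⟩
  obtain ⟨i', e2⟩ : ∃ i', y = ((nx U)^[i'] s).1 := by
    rcases ends_edge hy with e | e
    · exact ⟨i, e⟩
    · exact ⟨i + 1, by rw [Function.iterate_succ_apply']; exact e⟩
  have := (mem_orb hD hs).2 ⟨i', rfl⟩
  rw [← orb_iter hD hs t'] at this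
  obtain ⟨k, hk, e3⟩ := Finset.mem_image.1 this
  refine ⟨seg U ((nx U)^[t'] s).2 k, by simpa using (Finset.mem_range.1 hk).le, ?_⟩
  rw [e1, e2, ← e3, iter_nx _ k]

end Cut

theorem fellow (h : Stk U κ eh) (hD : 2 * m ≤ D) (hmD : m ∣ D) {G : Type} [Group G]
    (φ : FreeGroup α →* G) (hφ : ∀ g, φ g = 1 ↔ g ∈ Subgroup.normalClosure {mk (seg U 0 D)})
    {v z : List (α × Bool)} (hv : IsReduced v) (hz : IsReduced z)
    (av : ¬ Arc U (D - m + 1) v) (az : ¬ Arc U (D - m + 1) z) (he : φ (mk v) = φ (mk z))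
    (geo : ∀ z', φ (mk z') = φ (mk z) → z.length ≤ z'.length) (hl : 5 * D < z.length) :
    ∃ t ≤ v.length, ∃ x₁ x₂ : List (α × Bool), x₁.length ≤ 6 * D ∧
      φ (mk x₁) = φ (mk (v.take t)) ∧ x₂.length < z.length ∧ φ (mk x₂) = φ (mk (v.drop t)) := by
  have hm : 0 < m := Nat.pos_of_neZero m
  have hD0 : 0 < D := by omega
  obtain ⟨V, _, o, e0, h1, h2, S₀, h3⟩ := setup (U := U) hD0 hmD (v := v) (z := z)
    ((hφ _).1 (by rw [φ.map_mul, φ.map_inv, he, mul_inv_cancel]))
  have eqv : ∀ l l', walk o l = walk o l' → φ (mk l) = φ (mk l') := fun l l' e => by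
    have := (hφ _).2 (h1 l l' e)
    rwa [φ.map_mul, φ.map_inv, mul_inv_eq_one] at this
  obtain ⟨S, hg, hS⟩ := (two_paths h hD0 h3 o hv hz (Or.inr (by rintro rfl; simp at hl)) e0
    av az).2 hD (by
    rintro ⟨y, j⟩ t g1 g2 g3
    rw [iter_nx, Prod.mk.injEq] at g3
    obtain ⟨c, rfl⟩ := h2 y
    have g5 := eqv (c ++ seg U j t) c (by rw [walk_append]; exact g3.1)
    rw [← mul_mk, φ.map_mul, mul_eq_left] at g5
    have g6 := (newman h hD0 hmD (seg_reduced h.red j t) (by
      intro e; have := seg_length (U := U) j t; rw [e] at this; simp at this; omega)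
      ((hφ _).1 g5)).le
    have g7 := Nat.le_of_dvd (by omega) (Nat.dvd_sub hmD
      ((ZMod.natCast_eq_zero_iff t m).1 (by simpa using g3.2)))
    rw [seg_length] at g6
    omega)
  have geo' : ∀ i i' (x : List (α × Bool)), i' ≤ z.length →
      walk (walk o (z.take i)) x = walk o (z.take i') → i' ≤ i + x.length := by
    intro i i' x g1 g2
    have := geo (z.take i ++ x ++ z.drop i') (eqv _ _ (by
      rw [walk_append, walk_append, g2, ← walk_append, List.take_append_drop]))
    simp only [List.length_append, List.length_take, List.length_drop] at this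
    omega
  have g1 := hg.sp (ch o v - ch o z) ((mem_supported' _ _).2 fun e he => by
    simp only [Finset.coe_union, Set.mem_union, Finset.mem_coe, List.mem_toFinset,
      List.mem_append, not_or] at he
    rw [Finsupp.sub_apply, by_contra fun g => he.2.1 (ch_apply_ne g),
      by_contra fun g => he.2.2 (ch_apply_ne g), sub_zero]) (by rw [map_sub, bd_ch, bd_ch, e0]; simp)
  have g2 : ch o v - ch o z ∈
      (supported ℤ ℤ {e | Touch D o z e} ⊓ LinearMap.ker bd) ⊔ supported ℤ ℤ {e | Touch D o v e} := by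
    refine span_le.2 ?_ g1
    intro c hc
    obtain ⟨s, hs, rfl⟩ := Finset.mem_image.1 (Finset.mem_coe.1 hc)
    obtain ⟨t, ht⟩ := hS s hs
    rcases List.mem_append.1 ht with ht | ht
    · refine mem_sup_right ((mem_supported' _ _).2 fun e he => by_contra fun g => ?_)
      obtain ⟨i, -, rfl⟩ := ch_seg_ne g
      exact he (touch_of_orb hD0 (hg.per s hs) ht i)
    · refine mem_sup_left ⟨(mem_supported' _ _).2 fun e he => by_contra fun g => ?_, ?_⟩
      · obtain ⟨i, -, rfl⟩ := ch_seg_ne g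
        exact he (touch_of_orb hD0 (hg.per s hs) ht i)
      · have : walk s.1 (seg U s.2 D) = s.1 := by
          simpa only [iter_nx] using congrArg Prod.fst (hg.per s hs)
        rw [SetLike.mem_coe, LinearMap.mem_ker, cyc, bd_ch, this, sub_self]
  obtain ⟨p₁, ⟨g3, g4⟩, p₂, g5, g6⟩ := mem_sup.1 g2
  let ind : V → ℤ := fun y => if ∃ i ≤ 4 * D, ∃ x : List (α × Bool),
    x.length ≤ D ∧ walk (walk o (z.take i)) x = y then 1 else 0
  obtain ⟨e, g7, g8⟩ : ∃ e, (ch o z + p₁) e ≠ 0 ∧ ind (step e.1 (e.2, true)) ≠ ind e.1 := by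
    by_contra hcon
    push Not at hcon
    have k1 : linearCombination ℤ ind (bd (ch o z + p₁)) = 0 := by
      rw [← Finsupp.sum_single (ch o z + p₁), Finsupp.sum, map_sum, map_sum]
      refine Finset.sum_eq_zero fun e he => ?_
      simp [bd, hcon e (mem_support_iff.1 he)]
    have k2 : ind o = 1 := if_pos ⟨0, by omega, [], by simp, by simp⟩
    have k3 : ind (walk o z) = 0 := if_neg fun ⟨i, k1, x, k2, k3⟩ => by
      have := geo' i z.length x le_rfl (by rw [k3, List.take_length])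
      omega
    rw [map_add, show bd p₁ = 0 from g4, bd_ch] at k1
    simp [k2, k3] at k1
  obtain ⟨i'', k1, k2⟩ : Touch D o z e := by
    by_contra k
    exact g7 (by rw [Finsupp.add_apply, by_contra fun g => k (touch_of_mem hD0 (ch_apply_ne g)),
      (mem_supported' _ _).1 g3 e k, add_zero])
  obtain ⟨t, k3, k4⟩ : Touch D o v e := by
    by_contra k
    refine g7 ?_
    rw [show ch o z + p₁ = ch o v - p₂ by rw [sub_eq_iff_eq_add'.1 g6.symm]; abel,
      Finsupp.sub_apply, by_contra fun g => k (touch_of_mem hD0 (ch_apply_ne g)),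
      (mem_supported' _ _).1 g5 e k, sub_zero]
  obtain ⟨y, y', k5, k6, ⟨i', k7, x, k8, k9⟩, k10⟩ : ∃ y y',
      (y = e.1 ∨ y = step e.1 (e.2, true)) ∧ (y' = e.1 ∨ y' = step e.1 (e.2, true)) ∧
      (∃ i ≤ 4 * D, ∃ x : List (α × Bool), x.length ≤ D ∧ walk (walk o (z.take i)) x = y) ∧
      ¬ ∃ i ≤ 4 * D, ∃ x : List (α × Bool), x.length ≤ D ∧ walk (walk o (z.take i)) x = y' := by
    simp only [ind] at g8
    split_ifs at g8 with q1 q2 q2
    · exact absurd rfl g8
    · exact ⟨_, _, Or.inr rfl, Or.inl rfl, q1, q2⟩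
    · exact ⟨_, _, Or.inl rfl, Or.inr rfl, q2, q1⟩
    · exact absurd rfl g8
  have k11 : 4 * D < i'' := not_le.1 fun g => k10 ⟨i'', g, k2 y' k6⟩
  obtain ⟨x', k12, k13⟩ := k2 y k5
  obtain ⟨x'', k14, k15⟩ := k4 y k5
  have k16 := geo' i' i'' (x ++ invRev x') k1 (by rw [walk_append, k9, ← k13, walk_invRev])
  simp only [List.length_append, invRev_length] at k16
  refine ⟨t, k3, z.take i' ++ x ++ invRev x'', x'' ++ invRev x ++ z.drop i', ?_,
    eqv _ _ (by rw [walk_append, walk_append, k9, ← k15, walk_invRev]), ?_, ?_⟩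
  · simp only [List.length_append, invRev_length, List.length_take]; omega
  · simp only [List.length_append, invRev_length, List.length_drop]; omega
  · have := eqv (v.take t ++ (x'' ++ invRev x ++ z.drop i')) (v.take t ++ v.drop t) (by
      rw [List.take_append_drop, walk_append, walk_append, walk_append, k15, ← k9, walk_invRev,
        ← walk_append, List.take_append_drop, e0])
    rwa [← mul_mk, ← mul_mk (L₁ := v.take t), φ.map_mul, φ.map_mul, mul_right_inj] at this

end Pool.Agent.MP_e50591_al.H50
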