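import Pool.Agent.MP_e50591_al.H50.Count

/-!
Circles, free edges and shells.
-/

namespace Pool.Agent.MP_e50591_al.H50

open Finsupp Submodule FreeGroup
open scoped Classical

variable {α : Type} {V : Type} [MulAction (FreeGroup α) V] {m : ℕ} {U : ZMod m → α × Bool}
  {K : Type} [LinearOrder K] {κ eh : ZMod m → K} {S : Finset (V × ZMod m)} {D : ℕ}
  {EP : Finset (V × α)} {T : Finset V}

/-- The subword of length `L` of the periodic word that starts at position `j`. -/
def seg (U : ZMod m → α × Bool) : ZMod m → ℕ → List (α × Bool)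
  | _, 0 => []
  | j, L + 1 => U j :: seg U (j + 1) L

@[simp] lemma seg_length (j : ZMod m) (L : ℕ) : (seg U j L).length = L := by
  induction L generalizing j with
  | zero => rfl
  | succ L ih => simp [seg, ih]

lemma seg_add (j : ZMod m) (a b : ℕ) : seg U j (a + b) = seg U j a ++ seg U (j + a) b := by
  induction a generalizing j with
  | zero => simp [seg]
  | succ a ih =>
    rw [Nat.add_right_comm, seg, seg, ih, Nat.cast_succ, add_assoc, add_comm 1]
    rfl

lemma iter_nx (s : V × ZMod m) (t : ℕ) :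
    (nx U)^[t] s = (walk s.1 (seg U s.2 t), s.2 + t) := by
  induction t generalizing s with
  | zero => simp [seg]
  | succ t ih =>
    rw [Function.iterate_succ_apply, ih, seg, walk_cons]
    simp only [nx, Nat.cast_succ, add_assoc, add_comm (1 : ZMod m)]

lemma ch_seg (s : V × ZMod m) (t : ℕ) : ch s.1 (seg U s.2 t) =
    ∑ i ∈ Finset.range t, single (ed U ((nx U)^[i] s)) (sgn (U ((nx U)^[i] s).2)) := by
  induction t generalizing s with
  | zero => simp [seg, ch]
  | succ t ih =>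
    rw [Finset.sum_range_succ', seg, ch, add_comm]
    congr 1
    exact ih (nx U s)

/-- The cycle of the circle through a strand. -/
noncomputable def cyc (U : ZMod m → α × Bool) (D : ℕ) (s : V × ZMod m) : V × α →₀ ℤ :=
  ch s.1 (seg U s.2 D)

/-- The circle through a strand. -/
noncomputable def orb (U : ZMod m → α × Bool) (D : ℕ) (s : V × ZMod m) : Finset (V × ZMod m) :=
  (Finset.range D).image fun i => (nx U)^[i] s

lemma per_iter {s : V × ZMod m} (h : (nx U)^[D] s = s) (t : ℕ) :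
    (nx U)^[D] ((nx U)^[t] s) = (nx U)^[t] s := by
  rw [← Function.iterate_add_apply, add_comm, Function.iterate_add_apply, h]

lemma cyc_iter {s : V × ZMod m} (h : (nx U)^[D] s = s) (t : ℕ) :
    cyc U D ((nx U)^[t] s) = cyc U D s := by
  induction t with
  | zero => rfl
  | succ t ih =>
    rw [← ih, Function.iterate_succ_apply']
    have h1 := per_iter h t
    generalize (nx U)^[t] s = s' at h1
    have h2 := ch_seg (U := U) s' (D + 1)
    rw [Finset.sum_range_succ, h1, ← ch_seg, seg, ch, add_comm] at h2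
    exact add_right_cancel h2

lemma mem_orb (hD : 0 < D) {s s' : V × ZMod m} (h : (nx U)^[D] s = s) :
    s' ∈ orb U D s ↔ ∃ t, (nx U)^[t] s = s' := by
  simp only [orb, Finset.mem_image, Finset.mem_range]
  refine ⟨fun ⟨t, _, e⟩ => ⟨t, e⟩, fun ⟨t, e⟩ => ⟨t % D, Nat.mod_lt _ hD, ?_⟩⟩
  rw [← e]
  exact Function.IsPeriodicPt.iterate_mod_apply h t

lemma orb_iter (hD : 0 < D) {s : V × ZMod m} (h : (nx U)^[D] s = s) (t : ℕ) :
    orb U D ((nx U)^[t] s) = orb U D s := by
  ext s'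
  rw [mem_orb hD h, mem_orb hD (per_iter h t)]
  constructor
  · rintro ⟨i, rfl⟩
    exact ⟨i + t, Function.iterate_add_apply _ _ _ _⟩
  · rintro ⟨i, rfl⟩
    refine ⟨i + (D - 1) * t, ?_⟩
    rw [← Function.iterate_add_apply, add_assoc, Function.iterate_add_apply,
      show (D - 1) * t + t = D * t by
        obtain ⟨D, rfl⟩ := Nat.exists_eq_succ_of_ne_zero hD.ne'; simp [Nat.succ_mul]]
    exact congrArg _ (Function.IsPeriodicPt.mul_const h t)

lemma of_orb_eq (hD : 0 < D) {s s' : V × ZMod m} (h : (nx U)^[D] s = s) (h' : (nx U)^[D] s' = s')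
    (e : orb U D s' = orb U D s) : ∃ t, (nx U)^[t] s = s' :=
  (mem_orb hD h).1 (e ▸ (mem_orb hD h').2 ⟨0, rfl⟩)

/-- A finite family of circles whose cycles span all cycles of the subgraph. -/
structure Good (U : ZMod m → α × Bool) (D : ℕ) (EP : Finset (V × α))
    (S : Finset (V × ZMod m)) : Prop where
  cl : ∀ s ∈ S, nx U s ∈ S
  per : ∀ s ∈ S, (nx U)^[D] s = s
  sp : ∀ z ∈ supported ℤ ℤ ((S.image (ed U) ∪ EP : Finset (V × α)) : Set (V × α)),
    bd z = 0 → z ∈ span ℤ ((S.image (cyc U D) : Finset _) : Set (V × α →₀ ℤ))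

lemma Good.iter (h : Good U D EP S) {s : V × ZMod m} (hs : s ∈ S) (t : ℕ) : (nx U)^[t] s ∈ S := by
  induction t with
  | zero => exact hs
  | succ t ih => rw [Function.iterate_succ_apply']; exact h.cl _ ih

lemma ch_seg_ne {s : V × ZMod m} {t : ℕ} {e : V × α} (h : ch s.1 (seg U s.2 t) e ≠ 0) :
    ∃ i < t, ed U ((nx U)^[i] s) = e := by
  rw [ch_seg, Finsupp.finsetSum_apply] at h
  obtain ⟨i, hi, h⟩ := Finset.exists_ne_zero_of_sum_ne_zero h
  exact ⟨i, Finset.mem_range.1 hi, by_contra fun e => h (single_eq_of_ne' e)⟩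

/-- The edge below the strand is covered by this strand only. -/
def Free (U : ZMod m → α × Bool) (S : Finset (V × ZMod m)) (s : V × ZMod m) : Prop :=
  ∀ s' ∈ S, ed U s' = ed U s → s' = s

lemma Good.coef (h : Good U D EP S) {s : V × ZMod m} (hs : s ∈ S) (hf : Free U S s) (t : ℕ) :
    sgn (U s.2) * ch s.1 (seg U s.2 t) (ed U s) =
      ((Finset.range t).filter fun i => (nx U)^[i] s = s).card := by
  rw [ch_seg, Finsupp.finsetSum_apply, Finset.mul_sum, Finset.card_filter, Nat.cast_sum]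
  refine Finset.sum_congr rfl fun i _ => ?_
  split_ifs with e
  · simp [e, sgn_mul_self]
  · rw [single_eq_of_ne' fun e' => e (hf _ (h.iter hs i) e')]
    simp

theorem Good.exists_min (hD : 0 < D) {S₀ : Finset (V × ZMod m)} (h₀ : Good U D EP S₀) :
    ∃ S, Good U D EP S ∧ ∀ s ∈ S, Free U S s → ed U s ∈ EP := by
  obtain ⟨S, h, hmin⟩ := exists_minimal_of_wellFoundedLT (Good U D EP) ⟨S₀, h₀⟩
  refine ⟨S, h, fun s hs hf => by_contra fun he => ?_⟩
  set S' := S.filter fun s' => orb U D s' ≠ orb U D s with hS'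
  have hs' : s ∉ S' := by simp [hS']
  refine hs' (hmin (y := S') ⟨fun s' h1 => ?_, fun s' h1 => h.per _ (Finset.mem_filter.1 h1).1,
    fun z hz h1 => ?_⟩ (Finset.filter_subset _ _) hs)
  · obtain ⟨h1, h2⟩ := Finset.mem_filter.1 h1
    exact Finset.mem_filter.2 ⟨h.cl _ h1, by rwa [← orb_iter hD (h.per _ h1) 1] at h2⟩
  · have h2 := h.sp z (supported_mono (Finset.coe_subset.2 (Finset.union_subset_union_left
      (Finset.image_subset_image (Finset.filter_subset _ _)))) hz) h1
    have h3 : ((S.image (cyc U D) : Finset _) : Set (V × α →₀ ℤ)) ⊆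
        insert (cyc U D s) (S'.image (cyc U D) : Finset _) := by
      intro c hc
      obtain ⟨s', h4, rfl⟩ := Finset.mem_image.1 (Finset.mem_coe.1 hc)
      by_cases e : orb U D s' = orb U D s
      · obtain ⟨t, rfl⟩ := of_orb_eq hD (h.per _ hs) (h.per _ h4) e
        exact Or.inl (cyc_iter (h.per _ hs) t)
      · exact Or.inr (Finset.mem_coe.2 (Finset.mem_image_of_mem _ (Finset.mem_filter.2 ⟨h4, e⟩)))
    obtain ⟨k, z', h4, rfl⟩ := mem_span_insert.1 (span_mono h3 h2)
    have h5 : z' (ed U s) = 0 := by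
      refine span_induction (p := fun z' _ => z' (ed U s) = 0) ?_ rfl
        (fun x y _ _ hx hy => by simp [hx, hy]) (fun c x _ hx => by simp [hx]) h4
      intro c hc
      obtain ⟨s', h4, rfl⟩ := Finset.mem_image.1 (Finset.mem_coe.1 hc)
      obtain ⟨h4, h5⟩ := Finset.mem_filter.1 h4
      by_contra h6
      obtain ⟨i, -, h7⟩ := ch_seg_ne h6
      exact h5 (by rw [← hf _ (h.iter h4 i) h7, orb_iter hD (h.per _ h4)])
    have h6 := (mem_supported' _ _).1 hz (ed U s) (by
      simp only [Finset.coe_union, Set.mem_union, Finset.mem_coe, he, or_false, Finset.mem_image]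
      rintro ⟨s', h6, h7⟩
      exact hs' (hf s' (Finset.mem_filter.1 h6).1 h7 ▸ h6))
    have h7 : cyc U D s (ed U s) ≠ 0 := fun e => by
      have := h.coef hs hf D
      rw [show ch s.1 (seg U s.2 D) = cyc U D s from rfl, e, mul_zero, eq_comm, Nat.cast_eq_zero,
        Finset.card_eq_zero] at this
      have h8 : 0 ∈ (Finset.range D).filter fun i => (nx U)^[i] s = s := by simp [hD]
      simp [this] at h8
    simp only [Finsupp.add_apply, Finsupp.smul_apply, h5, add_zero, smul_eq_mul, mul_eq_zero, h7,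
      or_false] at h6
    simpa [h6] using h4

lemma Good.full (h : Good U D EP S) (hD : 0 < D) {s : V × ZMod m} (hs : s ∈ S)
    (hf : Free U S s) : Function.minimalPeriod (nx U) s = D := by
  have hp : Function.IsPeriodicPt (nx U) D s := h.per s hs
  obtain ⟨r, hr⟩ := hp.minimalPeriod_dvd
  have hd := hp.minimalPeriod_pos hD
  set d := Function.minimalPeriod (nx U) s with hd'
  have h1 : (nx U)^[d] s = s := Function.isPeriodicPt_minimalPeriod _ _
  have h2 : walk s.1 (seg U s.2 d) = s.1 ∧ s.2 + d = s.2 := by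
    rw [iter_nx] at h1; exact Prod.ext_iff.1 h1
  have h3 : ∀ r : ℕ, ch s.1 (seg U s.2 (d * r)) = (r : ℤ) • ch s.1 (seg U s.2 d) := by
    intro r
    induction r with
    | zero => simp [seg, ch]
    | succ r ih =>
      rw [Nat.mul_succ, add_comm, seg_add, ch_append, h2.1, h2.2, ih, Nat.cast_succ, add_smul,
        one_smul, add_comm]
  have h4 := h.sp (ch s.1 (seg U s.2 d)) ((mem_supported' _ _).2 fun e he => by
    by_contra h4
    obtain ⟨i, -, rfl⟩ := ch_seg_ne h4
    exact he (Finset.mem_coe.2 (Finset.mem_union_left _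
      (Finset.mem_image_of_mem _ (h.iter hs i))))) (by rw [bd_ch, h2.1, sub_self])
  have h5 : (r : ℤ) ∣ ch s.1 (seg U s.2 d) (ed U s) := by
    refine span_induction (p := fun z' _ => (r : ℤ) ∣ z' (ed U s)) ?_ (dvd_zero _)
      (fun x y _ _ hx hy => dvd_add hx hy) (fun c x _ hx => hx.mul_left c) h4
    intro c hc
    obtain ⟨s', h4, rfl⟩ := Finset.mem_image.1 (Finset.mem_coe.1 hc)
    by_cases h6 : cyc U D s' (ed U s) = 0
    · simp [h6]
    · obtain ⟨i, -, h7⟩ := ch_seg_ne h6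
      rw [← cyc_iter (h.per _ h4) i, hf _ (h.iter h4 i) h7, cyc, hr, h3]
      exact dvd_mul_right _ _
  have h6 := h.coef hs hf d
  rw [show ((Finset.range d).filter fun i => (nx U)^[i] s = s) = {0} from ?_] at h6
  · have h7 : (r : ℤ) ∣ 1 := by simpa [h6] using h5.mul_left (sgn (U s.2))
    rw [hr, Nat.eq_one_of_dvd_one (Int.natCast_dvd_natCast.1 h7), mul_one]
  · ext i
    simp only [Finset.mem_filter, Finset.mem_range, Finset.mem_singleton]
    refine ⟨fun ⟨h7, h8⟩ => by_contra fun h9 => ?_, by rintro rfl; exact ⟨hd, rfl⟩⟩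
    exact (Function.IsPeriodicPt.minimalPeriod_le (Nat.pos_of_ne_zero h9) h8).not_gt h7

variable [NeZero m]

lemma exists_pos (j j' : ZMod m) (k : ℕ) : ∃ t : ℕ, k ≤ t ∧ t < k + m ∧ j + t = j' := by
  refine ⟨k + (j' - j - k).val, by omega, by have := ZMod.val_lt (j' - j - (k : ZMod m)); omega, ?_⟩
  simp

lemma top_chain (h : Stk U κ eh) (hg : Good U D EP S) {s : V × ZMod m} (hs : s ∈ S) {d : ℕ}
    (hd : ∀ t, 1 ≤ t → t < d → (nx U)^[t] s ∉ dfc U κ eh S) (t : ℕ) (h1 : m ≤ t) (h2 : t ≤ d) :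
    TopV κ S ((nx U)^[t] s) := by
  obtain ⟨j, -, hj⟩ := (Finset.univ : Finset (ZMod m)).exists_max_image κ Finset.univ_nonempty
  obtain ⟨t₀, g1, g2, g3⟩ := exists_pos s.2 j 1
  have g4 : t₀ ≤ t := by omega
  clear h1
  induction t, g4 using Nat.le_induction with
  | base =>
    intro s' _ _
    rw [iter_nx]
    exact g3 ▸ hj _ (Finset.mem_univ _)
  | succ t g4 ih =>
    rw [Function.iterate_succ_apply']
    by_contra g5
    exact hd t (by omega) (by omega) (Finset.mem_filter.2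
      ⟨hg.iter hs t, (ih (by omega)).topE h hg.cl, g5⟩)

omit [NeZero m] in
lemma free_of_excl (h : Stk U κ eh) (hg : Good U D EP S) {s : V × ZMod m}
    (h1 : TopV κ S s) (h2 : TopV (K := Kᵒᵈ) κ S s) :
    (∀ s' ∈ S, s'.1 = s.1 → s' = s) ∧ Free U S s := by
  have h3 : ∀ s' ∈ S, s'.1 = s.1 → s' = s := fun s' hs' e =>
    Prod.ext e (h.inj (le_antisymm (h1 s' hs' e) (h2 s' hs' e)))
  refine ⟨h3, fun s' hs' e => ?_⟩
  rcases ed_eq e with ⟨g, -, -⟩ | ⟨-, g1, g2⟩
  · exact h3 s' hs' g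
  · have := h3 _ (hg.cl s' hs') g1
    subst this
    exact absurd (by rw [g2, bar_bar]; rfl) (h.red s'.2)

/-- An arc of length `L` that a path has to follow. -/
def Shell (U : ZMod m → α × Bool) (EP : Finset (V × α)) (T : Finset V) (L : ℕ) : Prop :=
  ∃ s : V × ZMod m, ed U s ∈ EP ∧ ∀ i, i + 1 < L → ((nx U)^[i + 1] s).1 ∉ T ∧
    ∀ a, edge ((nx U)^[i + 1] s).1 a ∈ EP →
      a = U ((nx U)^[i + 1] s).2 ∨ a = bar (U ((nx U)^[i] s).2)

lemma shell_of (h : Stk U κ eh) (hg : Good U D EP S) (hD : 0 < D)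
    (hmin : ∀ s ∈ S, Free U S s → ed U s ∈ EP) {s : V × ZMod m} (hs : s ∈ S)
    (hd : ∀ t, (nx U)^[t] s ∈ dfc U κ eh S ∪ dfc (K := Kᵒᵈ) U κ eh S ∪ brk U κ S EP T →
      (nx U)^[t] s = s) : Shell U EP T (D - m + 1) := by
  have hp : Function.IsPeriodicPt (nx U) D s := hg.per s hs
  have hd0 := hp.minimalPeriod_pos hD
  have h1 : (nx U)^[Function.minimalPeriod (nx U) s] s = s :=
    Function.isPeriodicPt_minimalPeriod _ _
  have h2 : ∀ t, 1 ≤ t → t < Function.minimalPeriod (nx U) s → (nx U)^[t] s ∉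
      dfc U κ eh S ∪ dfc (K := Kᵒᵈ) U κ eh S ∪ brk U κ S EP T := fun t g1 g2 g3 =>
    (Function.IsPeriodicPt.minimalPeriod_le g1 (hd t g3)).not_gt g2
  simp only [Finset.mem_union, not_or] at h2
  have h3 := top_chain h hg hs fun t g1 g2 => (h2 t g1 g2).1.1
  have h4 := fun t g1 g2 => free_of_excl h hg (h3 t g1 g2)
    (top_chain h.dual hg hs (fun t g1 g2 => (h2 t g1 g2).1.2) t g1 g2)
  have h5 : m ≤ Function.minimalPeriod (nx U) s := by
    have := congrArg Prod.snd h1
    rw [iter_nx] at this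
    exact Nat.le_of_dvd hd0 ((ZMod.natCast_eq_zero_iff _ _).1 (by simpa using this))
  have h6 := hg.full hD hs (h1 ▸ (h4 _ h5 le_rfl).2)
  rw [h6] at h2 h3 h4 h5
  have hm : 0 < m := Nat.pos_of_neZero m
  refine ⟨(nx U)^[m] s, hmin _ (hg.iter hs m) (h4 m le_rfl h5).2, fun i hi => ?_⟩
  simp only [← Function.iterate_add_apply]
  have e : (nx U)^[i + 1 + m] s = nx U ((nx U)^[i + m] s) := by
    rw [Nat.add_right_comm, Function.iterate_succ_apply']
  have g1 := (h2 (i + m) (by omega) (by omega)).2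
  have g2 := h3 (i + 1 + m) (by omega) (by omega)
  have g3 := (h4 (i + 1 + m) (by omega) (by omega)).1
  simp only [brk, Finset.mem_filter, hg.iter hs, true_and, ← e, g2, not_or, not_exists,
    not_and, not_not] at g1
  refine ⟨g1.1, fun a ha => ?_⟩
  obtain ⟨s', g4, g5⟩ := Finset.mem_image.1 (g1.2 a ha)
  rcases edge_eq g5.symm with ⟨g6, g7⟩ | ⟨g6, g7⟩
  · exact Or.inl (g3 s' g4 g6.symm ▸ g7)
  · exact Or.inr (nx_injective ((g3 _ (hg.cl s' g4) g6.symm).trans e) ▸ g7)

lemma free_of_one (h : Stk U κ eh) (hg : Good U D EP S) (hD : 2 * m ≤ D) {s : V × ZMod m}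
    (hs : s ∈ S) (hfull : ∀ s ∈ S, ∀ t, 1 ≤ t → t < D → (nx U)^[t] s ≠ s)
    (hd : ((dfc U κ eh S).filter fun s' => orb U D s' = orb U D s).card ≤ 1) :
    ∃ t, Free U S ((nx U)^[t] s) := by
  have hm : 0 < m := Nat.pos_of_neZero m
  have hD0 : 0 < D := by omega
  obtain ⟨i, hi⟩ : ∃ i, ∀ s' ∈ dfc U κ eh S, orb U D s' = orb U D s → s' = (nx U)^[i] s := by
    by_cases e : ∃ s' ∈ dfc U κ eh S, orb U D s' = orb U D s
    · obtain ⟨s', h1, h2⟩ := e
      obtain ⟨i, rfl⟩ := of_orb_eq hD0 (hg.per s hs) (hg.per s' (Finset.mem_filter.1 h1).1) h2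
      exact ⟨i, fun s'' h3 h4 => Finset.card_le_one.1 hd _ (Finset.mem_filter.2 ⟨h3, h4⟩) _
        (Finset.mem_filter.2 ⟨h1, h2⟩)⟩
    · exact ⟨0, fun s' h1 h2 => absurd ⟨s', h1, h2⟩ e⟩
  obtain ⟨j, -, hj⟩ := (Finset.univ : Finset (ZMod m)).exists_min_image κ Finset.univ_nonempty
  obtain ⟨t, g1, g2, g3⟩ := exists_pos ((nx U)^[i] s).2 j m
  refine ⟨t + i, ?_⟩
  rw [Function.iterate_add_apply]
  refine (free_of_excl h hg (top_chain h hg (hg.iter hs i) (d := D) (fun t g1 g2 g3 =>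
    hfull _ (hg.iter hs i) t g1 g2 (hi _ g3 ?_)) t g1 (by omega)) fun s' _ _ => ?_).2
  · rw [← Function.iterate_add_apply, orb_iter hD0 (hg.per s hs)]
  · rw [iter_nx _ t]
    exact g3 ▸ hj _ (Finset.mem_univ _)

theorem dichotomy (h : Stk U κ eh) (hD : 0 < D) {S₀ : Finset (V × ZMod m)} (h₀ : Good U D EP S₀)
    (hne : EP.Nonempty) (hdeg : ∀ y a, edge y a ∈ EP → y ∉ T → ∃ a', a' ≠ a ∧ edge y a' ∈ EP) :
    Shell U EP T (D - m + 1) ∨ (2 ≤ T.card ∧ (T.card ≤ 2 → 2 * m ≤ D →
      (∀ s : V × ZMod m, ∀ t, 1 ≤ t → t < D → (nx U)^[t] s ≠ s) →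
      ∃ S, Good U D EP S ∧ ∀ s ∈ S, ∃ t, ed U ((nx U)^[t] s) ∈ EP)) := by
  obtain ⟨S, hg, hmin⟩ := h₀.exists_min hD
  have c := count h hg.cl EP T hne hdeg _ hg.sp
  have c1 : (S.image (cyc U D)).card ≤ (S.image (orb U D)).card := by
    refine Finset.card_le_card_of_surjOn (fun O => if e : ∃ s ∈ S, orb U D s = O then
      cyc U D e.choose else 0) ?_
    intro c hc
    obtain ⟨s, hs, rfl⟩ := Finset.mem_image.1 (Finset.mem_coe.1 hc)
    have e : ∃ s' ∈ S, orb U D s' = orb U D s := ⟨s, hs, rfl⟩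
    refine ⟨orb U D s, Finset.mem_coe.2 (Finset.mem_image_of_mem _ hs), ?_⟩
    obtain ⟨t, ht⟩ := of_orb_eq hD (hg.per s hs) (hg.per _ e.choose_spec.1) e.choose_spec.2
    simp only [dif_pos e]
    rw [← ht, cyc_iter (hg.per s hs)]
  have c2 : ∀ A ⊆ S, A.card = ∑ O ∈ S.image (orb U D), (A.filter fun s => orb U D s = O).card :=
    fun A hA => Finset.card_eq_sum_card_fiberwise fun s hs => Finset.mem_image_of_mem _ (hA hs)
  rw [c2 (dfc U κ eh S) (Finset.filter_subset _ _),
    c2 (dfc (K := Kᵒᵈ) U κ eh S) (Finset.filter_subset _ _),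
    c2 (brk U κ S EP T) (Finset.filter_subset _ _), ← Finset.sum_add_distrib,
    ← Finset.sum_add_distrib] at c
  set f : Finset (V × ZMod m) → ℕ := fun O =>
    ((dfc U κ eh S).filter fun s => orb U D s = O).card +
    ((dfc (K := Kᵒᵈ) U κ eh S).filter fun s => orb U D s = O).card +
    ((brk U κ S EP T).filter fun s => orb U D s = O).card with hf
  by_cases hall : ∀ O ∈ S.image (orb U D), 2 ≤ f O
  · right
    have c3 := Finset.card_nsmul_le_sum _ f 2 hall
    rw [smul_eq_mul] at c3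
    refine ⟨by omega, fun hT h2 hfull => ⟨S, hg, fun s hs => ?_⟩⟩
    have c4 := Finset.mem_image_of_mem (orb U D) hs
    have c5 := Finset.card_nsmul_le_sum ((S.image (orb U D)).erase (orb U D s)) f 2
      fun O hO => hall O (Finset.mem_of_mem_erase hO)
    have c6 : f _ + Finset.sum _ f = Finset.sum _ f := Finset.add_sum_erase _ f c4
    have c7 := Finset.card_erase_add_one c4
    rw [smul_eq_mul] at c5
    have c8 : f (orb U D s) ≤ 2 := by omega
    simp only [hf] at c8
    obtain ⟨t, ht⟩ : ∃ t, Free U S ((nx U)^[t] s) := by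
      by_cases e : ((dfc U κ eh S).filter fun s' => orb U D s' = orb U D s).card ≤ 1
      · exact free_of_one h hg h2 hs (fun s _ => hfull s) e
      · exact free_of_one h.dual hg h2 hs (fun s _ => hfull s) (by omega)
    exact ⟨t, hmin _ (hg.iter hs t) ht⟩
  · left
    push Not at hall
    obtain ⟨O, hO, c3⟩ := hall
    obtain ⟨s, hs, rfl⟩ := Finset.mem_image.1 hO
    set A := dfc U κ eh S ∪ dfc (K := Kᵒᵈ) U κ eh S ∪ brk U κ S EP T with hA
    have c4 : (A.filter fun s' => orb U D s' = orb U D s).card ≤ 1 := by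
      rw [hA, Finset.filter_union, Finset.filter_union]
      refine (Finset.card_union_le _ _).trans ((Nat.add_le_add_right
        (Finset.card_union_le _ _) _).trans ?_)
      simp only [hf] at c3
      omega
    by_cases e : ∃ s' ∈ A, orb U D s' = orb U D s
    · obtain ⟨s', h1, h2⟩ := e
      have h3 : s' ∈ S := by
        simp only [hA, Finset.mem_union] at h1
        rcases h1 with (h1 | h1) | h1 <;> exact (Finset.mem_filter.1 h1).1
      exact shell_of h hg hD hmin h3 fun t h4 => Finset.card_le_one.1 c4 _ (Finset.mem_filter.2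
        ⟨h4, (orb_iter hD (hg.per _ h3) t).trans h2⟩) _ (Finset.mem_filter.2 ⟨h1, h2⟩)
    · exact shell_of h hg hD hmin hs fun t h4 => absurd ⟨_, h4, orb_iter hD (hg.per _ hs) t⟩ e

end Pool.Agent.MP_e50591_al.H50
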